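import Pool.Agent.H215R3.FS.Ring2

set_option autoImplicit false

namespace Pool.Agent.H215R3.FS

open MvPowerSeries

/-- parameters for the exponent vectors of `x`-degree `< q` and weight `0` -/
def params (q : ℕ) : Finset (Σ _ : ℕ, ℕ × (Σ _ : ℕ, ℕ)) :=
  (Finset.range q).sigma fun n => (Finset.range (n + 1)) ×ˢ
    ((Finset.range (n + 1)).sigma fun s => Finset.range (s + 1))

/-- the exponent vector with given parameters -/
noncomputable def mkExp (x : Σ _ : ℕ, ℕ × (Σ _ : ℕ, ℕ)) : Fin 5 →₀ ℕ :=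
  Finsupp.equivFunOnFinite.symm
    ![x.2.1, x.1 - x.2.1, x.2.2.2, x.2.2.1 - x.2.2.2, x.1 - x.2.2.1]

/-- the exponent vectors of `x`-degree `< q` and weight `0` -/
noncomputable def Cf (q : ℕ) : Finset (Fin 5 →₀ ℕ) := (params q).image mkExp

def cnt (q : ℕ) : ℕ := ∑ n ∈ Finset.range q, (n + 1) * ∑ s ∈ Finset.range (n + 1), (s + 1)

lemma card_params (q : ℕ) : (params q).card = cnt q := by
  simp [params, cnt, Finset.card_sigma, Finset.card_product]

lemma card_Cf (q : ℕ) : (Cf q).card ≤ cnt q := by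
  rw [← card_params]
  exact Finset.card_image_le

lemma mem_Cf (q : ℕ) (u : Fin 5 →₀ ℕ) (h1 : wt u = 0) (h2 : u 0 + u 1 < q) : u ∈ Cf q := by
  unfold wt at h1
  refine Finset.mem_image.2 ⟨⟨u 0 + u 1, u 0, ⟨u 2 + u 3, u 2⟩⟩, ?_, ?_⟩
  · simp only [params, Finset.mem_sigma, Finset.mem_product, Finset.mem_range]
    omega
  · ext i
    simp only [mkExp, Finsupp.equivFunOnFinite_symm_apply_apply]
    fin_cases i
    · simp
    · simp
    · simp
    · simp
    · simp
      omega

lemma wt_of_mem_Cf {q : ℕ} {u : Fin 5 →₀ ℕ} (h : u ∈ Cf q) : wt u = 0 := by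
  obtain ⟨x, hx, rfl⟩ := Finset.mem_image.1 h
  simp only [params, Finset.mem_sigma, Finset.mem_product, Finset.mem_range] at hx
  simp only [wt, mkExp, Finsupp.equivFunOnFinite_symm_apply_apply]
  simp
  omega

section

variable {p : ℕ} [hp : Fact p.Prime]

/-- the monomial `M(u)` in `R` -/
noncomputable def Mon (u : Fin 5 →₀ ℕ) (hu : wt u = 0) : DR p :=
  ⟨monomial u 1, by rw [mem_detRing, ← hu]; exact hasWt_monomial u 1⟩

/-- the ideal attached to a `p^{-e}`-linear map -/
def J0 (φ0 : DR p →+ DR p) : Ideal (DR p) where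
  carrier := {r | ∀ s, constantCoeff (φ0 (r * s)).1 = 0}
  zero_mem' := by
    intro s
    rw [zero_mul, map_zero]
    exact map_zero _
  add_mem' := by
    intro a b ha hb s
    rw [add_mul, map_add]
    change constantCoeff ((φ0 (a * s)).1 + (φ0 (b * s)).1) = 0
    rw [map_add, ha, hb, add_zero]
  smul_mem' := by
    intro c a ha s
    rw [smul_eq_mul, mul_comm c a, mul_assoc]
    exact ha _

/-- the test map -/
noncomputable def T (e : ℕ) (φ0 : DR p →+ DR p) :
    DR p →+ ((Cf (p ^ e)) → ZMod p) × ((Cf (p ^ e)) → ZMod p) where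
  toFun r := (fun u => coeff u.1 r.1,
    fun u => constantCoeff (φ0 (r * Mon u.1 (wt_of_mem_Cf u.2))).1)
  map_zero' := by
    ext u
    · exact map_zero _
    · change constantCoeff (φ0 (0 * _)).1 = 0
      rw [zero_mul, map_zero]
      exact map_zero _
  map_add' := by
    intro a b
    ext u
    · exact map_add (coeff u.1) a.1 b.1
    · change constantCoeff (φ0 ((a + b) * _)).1 = constantCoeff (φ0 (a * _)).1 +
        constantCoeff (φ0 (b * _)).1
      rw [add_mul, φ0.map_add]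
      exact map_add constantCoeff _ _

lemma ker_T (e : ℕ) (φ0 : DR p →+ DR p) (hφ : IsPLin e φ0) (r : DR p) (hr : T e φ0 r = 0) :
    r ∈ J0 φ0 := by
  classical
  intro s
  have h1 : ∀ u ∈ Cf (p ^ e), coeff u r.1 = 0 := fun u hu =>
    congrFun (congrArg Prod.fst hr) ⟨u, hu⟩
  have h2 : ∀ u (hu : u ∈ Cf (p ^ e)), constantCoeff (φ0 (r * Mon u (wt_of_mem_Cf hu))).1 = 0 :=
    fun u hu => congrFun (congrArg Prod.snd hr) ⟨u, hu⟩
  -- `k`-linearity
  have hk : ∀ (c : ZMod p) (t : DR p), ∃ c' : DR p, (c'.1 = C c) ∧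
      constantCoeff (φ0 (c' * t)).1 = c * constantCoeff (φ0 t).1 := by
    intro c t
    have hc : HasWt 0 (C c : PS p 5) := by
      rw [← monomial_zero_eq_C_apply]
      have := hasWt_monomial (p := p) (0 : Fin 5 →₀ ℕ) c
      simpa [wt] using this
    refine ⟨⟨C c, hc⟩, rfl, ?_⟩
    have h3 : (⟨C c, hc⟩ : DR p) = (⟨C c, hc⟩ : DR p) ^ p ^ e := by
      apply Subtype.ext
      change C c = (C c) ^ p ^ e
      rw [← map_pow, ZMod.pow_card_pow]
    rw [h3, hφ]
    change constantCoeff (C c * (φ0 t).1) = _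
    rw [map_mul, constantCoeff_C]
  -- decompose `s`
  let s1 : PS p 5 := ∑ u ∈ Cf (p ^ e), C (coeff u s.1) * monomial u 1
  have hs1c : ∀ v, coeff v s1 = if v ∈ Cf (p ^ e) then coeff v s.1 else 0 := by
    intro v
    simp only [s1, map_sum, coeff_C_mul, coeff_monomial]
    simp
  have hs2 : HasWt 0 (s.1 - s1) := by
    intro u hu
    rw [map_sub, hs1c] at hu
    split_ifs at hu with h
    · rw [sub_self] at hu
      exact absurd rfl hu
    · rw [sub_zero] at hu
      exact s.2 u hu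
  have hs1 : HasWt 0 s1 := by
    intro u hu
    rw [hs1c] at hu
    split_ifs at hu with h
    · exact s.2 u hu
    · exact absurd rfl hu
  have hs : s = ⟨s1, hs1⟩ + ⟨s.1 - s1, hs2⟩ := by
    apply Subtype.ext
    change s.1 = s1 + (s.1 - s1)
    ring
  rw [hs, mul_add, map_add]
  change constantCoeff ((φ0 _).1 + (φ0 _).1) = 0
  rw [map_add]
  have hA : constantCoeff (φ0 (r * ⟨s1, hs1⟩)).1 = 0 := by
    choose c' hc1 hc2 using hk
    have h4 : r * ⟨s1, hs1⟩ = ∑ u ∈ (Cf (p ^ e)).attach,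
        c' (coeff u.1 s.1) (r * Mon u.1 (wt_of_mem_Cf u.2)) *
          (r * Mon u.1 (wt_of_mem_Cf u.2)) := by
      apply Subtype.ext
      rw [AddSubmonoidClass.coe_finsetSum]
      change r.1 * s1 = ∑ u ∈ (Cf (p ^ e)).attach, (c' _ _).1 * (r.1 * monomial u.1 1)
      simp only [hc1, s1, Finset.mul_sum]
      rw [← Finset.sum_attach]
      apply Finset.sum_congr rfl
      intro u _
      ring
    rw [h4, map_sum, AddSubmonoidClass.coe_finsetSum, map_sum]
    apply Finset.sum_eq_zero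
    intro u _
    rw [hc2, h2 u.1 u.2, mul_zero]
  have hB : constantCoeff (φ0 (r * ⟨s.1 - s1, hs2⟩)).1 = 0 := by
    apply phi_mem e φ0 hφ {0, 1}
    intro u hu
    change coeff u (r.1 * (s.1 - s1)) ≠ 0 at hu
    rw [coeff_mul] at hu
    obtain ⟨x, hx, hx'⟩ := Finset.exists_ne_zero_of_sum_ne_zero hu
    rw [Finset.HasAntidiagonal.mem_antidiagonal] at hx
    have hx1 := left_ne_zero_of_mul hx'
    have hx2 := right_ne_zero_of_mul hx'
    have k1 : p ^ e ≤ x.1 0 + x.1 1 := by
      by_contra hc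
      push Not at hc
      exact hx1 (h1 _ (mem_Cf _ _ (r.2 _ hx1) hc))
    have k2 : p ^ e ≤ x.2 0 + x.2 1 := by
      by_contra hc
      push Not at hc
      have hm := mem_Cf _ _ (hs2 _ hx2) hc
      apply hx2
      rw [map_sub, hs1c, if_pos hm, sub_self]
    have k3 := DFunLike.congr_fun hx 0
    have k4 := DFunLike.congr_fun hx 1
    rw [Finsupp.add_apply] at k3 k4
    by_cases h5 : p ^ e ≤ u 0
    · exact ⟨0, by simp, h5⟩
    · refine ⟨1, by simp, ?_⟩
      omega
  rw [hA, hB, add_zero]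

end

end Pool.Agent.H215R3.FS
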