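import Pool.Agent.H215R3.FS.Bound

set_option autoImplicit false

namespace Pool.Agent.H215R3.FS

open MvPowerSeries

section

variable {p : ℕ} [hp : Fact p.Prime]

/-- The `𝔽_p`-algebra structure of `R`. -/
noncomputable local instance instAlg : Algebra (ZMod p) (DR p) := ZMod.algebra (DR p) p

/-- a bound for the length of `R / J` -/
lemma length_le (J : Ideal (DR p)) {W : Type} [AddCommGroup W] [Module (ZMod p) W]
    [Module.Finite (ZMod p) W] (τ : DR p →+ W) (hτ : ∀ r, τ r = 0 → r ∈ J) :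
    Module.length (DR p) (DR p ⧸ J) ≤ Module.finrank (ZMod p) W := by
  have h1 : Module.length (DR p) (DR p ⧸ J) ≤ Module.length (ZMod p) (DR p ⧸ J) := by
    rw [← WithBot.coe_le_coe, Module.coe_length, Module.coe_length]
    exact Order.krullDim_le_of_orderEmbedding
      (Submodule.restrictScalarsEmbedding (ZMod p) (DR p) (DR p ⧸ J))
  let τ' : DR p →ₗ[ZMod p] W := τ.toZModLinearMap p
  let mk : DR p →ₗ[ZMod p] (DR p ⧸ J) := (J.mkQ).restrictScalars (ZMod p)
  have hmk : Function.Surjective mk := Submodule.mkQ_surjective J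
  have hle : LinearMap.ker τ' ≤ LinearMap.ker mk := by
    intro r hr
    rw [LinearMap.mem_ker] at hr ⊢
    change J.mkQ r = 0
    rw [Submodule.mkQ_apply, Submodule.Quotient.mk_eq_zero]
    exact hτ r hr
  let ψ : (DR p ⧸ LinearMap.ker τ') →ₗ[ZMod p] (DR p ⧸ J) := Submodule.liftQ _ mk hle
  have hψ : Function.Surjective ψ := by
    intro x
    obtain ⟨r, hr⟩ := hmk x
    exact ⟨Submodule.Quotient.mk r, hr⟩
  have hfin : Module.Finite (ZMod p) (DR p ⧸ LinearMap.ker τ') :=
    Module.Finite.equiv (LinearMap.quotKerEquivRange τ').symm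
  have hfin2 : Module.Finite (ZMod p) (DR p ⧸ J) := Module.Finite.of_surjective ψ hψ
  refine h1.trans ?_
  rw [Module.length_eq_finrank]
  have h2 : Module.finrank (ZMod p) (DR p ⧸ J) ≤
      Module.finrank (ZMod p) (DR p ⧸ LinearMap.ker τ') := by
    have := LinearMap.finrank_range_le ψ
    rwa [LinearMap.range_eq_top.2 hψ, finrank_top] at this
  have h3 : Module.finrank (ZMod p) (DR p ⧸ LinearMap.ker τ') ≤ Module.finrank (ZMod p) W := by
    rw [(LinearMap.quotKerEquivRange τ').finrank_eq]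
    exact Submodule.finrank_le _
  exact_mod_cast h2.trans h3

lemma length_J0_le (e : ℕ) (φ0 : DR p →+ DR p) (hφ : IsPLin e φ0) :
    Module.length (DR p) (DR p ⧸ J0 φ0) ≤ ((2 * cnt (p ^ e) : ℕ) : ℕ∞) := by
  refine (length_le (J0 φ0) (T e φ0) (ker_T e φ0 hφ)).trans ?_
  rw [Module.finrank_prod, Module.finrank_fintype_fun_eq_card, Fintype.card_coe]
  have := card_Cf (p ^ e)
  have h : (Cf (p ^ e)).card + (Cf (p ^ e)).card ≤ 2 * cnt (p ^ e) := by omega
  exact_mod_cast h

end

lemma cnt_formula (q : ℕ) : 24 * cnt q = q * (q + 1) * (q + 2) * (3 * q + 1) := by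
  have h1 : ∀ n : ℕ, 2 * ∑ s ∈ Finset.range (n + 1), (s + 1) = (n + 1) * (n + 2) := by
    intro n
    induction n with
    | zero => simp
    | succ n ih =>
      rw [Finset.sum_range_succ, mul_add, ih]
      ring
  induction q with
  | zero => simp [cnt]
  | succ q ih =>
    have h2 : cnt (q + 1) = cnt q + (q + 1) * ∑ s ∈ Finset.range (q + 1), (s + 1) := by
      rw [cnt, Finset.sum_range_succ]
      rfl
    rw [h2, mul_add, ih]
    have h3 : 24 * ((q + 1) * ∑ s ∈ Finset.range (q + 1), (s + 1)) =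
        12 * (q + 1) * ((q + 1) * (q + 2)) := by
      rw [← h1 q]
      ring
    rw [h3]
    ring

end Pool.Agent.H215R3.FS
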