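import Pool.Agent.H215R3.FS.FreeRank

set_option autoImplicit false

namespace Pool.Agent.H215R3.FS

open Finset Filter Topology

/-- the 5-tuples with sum `N` -/
noncomputable def Tup (N : ℕ) : Finset (Fin 5 →₀ ℕ) := (univ : Finset (Fin 5)).finsuppAntidiag N

lemma mem_Tup (N : ℕ) (u : Fin 5 →₀ ℕ) : u ∈ Tup N ↔ u 0 + u 1 + u 2 + u 3 + u 4 = N := by
  simp [Tup, mem_finsuppAntidiag, Fin.sum_univ_five]

lemma card_Tup (N : ℕ) : (Tup N).card = (N + 4).choose 4 := by
  rw [Tup, card_finsuppAntidiag_nat_eq_choose, card_univ, Fintype.card_fin]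
  have : 5 + N - 1 = N + 4 := by omega
  rw [this, Nat.choose_symm_add]

lemma card_big (q N : ℕ) (i : Fin 5) : ((Tup (N + q)).filter (fun u => q ≤ u i)).card =
    (N + 4).choose 4 := by
  classical
  rw [← card_Tup]
  have : (Tup (N + q)).filter (fun u => q ≤ u i) =
      (Tup N).map ⟨fun u => u + Finsupp.single i q, fun a b h => by simpa using h⟩ := by
    ext u
    rw [mem_filter, Finset.mem_map]
    constructor
    · rintro ⟨h1, h2⟩
      refine ⟨u - Finsupp.single i q, ?_, ?_⟩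
      · rw [mem_Tup] at h1 ⊢
        simp only [Finsupp.tsub_apply, Finsupp.single_apply]
        fin_cases i <;> simp at h2 ⊢ <;> omega
      · change u - Finsupp.single i q + Finsupp.single i q = u
        apply tsub_add_cancel_of_le
        rw [Finsupp.single_le_iff]
        exact h2
    · rintro ⟨v, hv, rfl⟩
      rw [mem_Tup] at hv
      change v + Finsupp.single i q ∈ Tup (N + q) ∧ q ≤ (v + Finsupp.single i q) i
      rw [mem_Tup]
      simp only [Finsupp.add_apply, Finsupp.single_apply]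
      fin_cases i <;> simp <;> omega
  rw [this, card_map]

lemma card_small (q : ℕ) (hq : 2 ≤ q) :
    ((Tup (2 * q - 2)).filter (fun u => ∀ i, u i < q)).card + 5 * (q + 2).choose 4 =
      (2 * q + 2).choose 4 := by
  classical
  have h0 : 2 * q - 2 + 4 = 2 * q + 2 := by omega
  rw [← h0, ← card_Tup]
  have h1 : Tup (2 * q - 2) = (Tup (2 * q - 2)).filter (fun u => ∀ i, u i < q) ∪
      univ.biUnion (fun i : Fin 5 => (Tup (2 * q - 2)).filter (fun u => q ≤ u i)) := by
    ext u
    simp only [mem_union, mem_filter, mem_biUnion, mem_univ, true_and]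
    constructor
    · intro h
      by_cases hc : ∀ i, u i < q
      · exact Or.inl ⟨h, hc⟩
      · push Not at hc
        obtain ⟨i, hi⟩ := hc
        exact Or.inr ⟨i, h, hi⟩
    · rintro (h | ⟨i, h, _⟩)
      · exact h.1
      · exact h
  have h2 : Disjoint ((Tup (2 * q - 2)).filter (fun u => ∀ i, u i < q))
      (univ.biUnion (fun i : Fin 5 => (Tup (2 * q - 2)).filter (fun u => q ≤ u i))) := by
    rw [disjoint_left]
    intro u hu
    simp only [mem_filter, mem_biUnion, mem_univ, true_and, not_exists, not_and, not_le] at hu ⊢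
    intro i _
    exact hu.2 i
  have h3 : (univ.biUnion (fun i : Fin 5 => (Tup (2 * q - 2)).filter (fun u => q ≤ u i))).card =
      5 * (q + 2).choose 4 := by
    rw [card_biUnion]
    · have h4 : ∀ i ∈ (univ : Finset (Fin 5)),
          ((Tup (2 * q - 2)).filter (fun u => q ≤ u i)).card = (q + 2).choose 4 := by
        intro i _
        have h5 : 2 * q - 2 = (q - 2) + q := by omega
        have h6 : q + 2 = (q - 2) + 4 := by omega
        rw [h5, card_big, h6]
      rw [sum_congr rfl h4, sum_const, card_univ, Fintype.card_fin, smul_eq_mul]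
    · intro i _ j _ hij
      change Disjoint ((Tup (2 * q - 2)).filter (fun u => q ≤ u i))
        ((Tup (2 * q - 2)).filter (fun u => q ≤ u j))
      rw [disjoint_left]
      intro u hu hu'
      rw [mem_filter, mem_Tup] at hu hu'
      have h7 := hu.1
      have h8 := hu.2
      have h9 := hu'.2
      fin_cases i <;> fin_cases j <;> simp at hij h8 h9 <;> omega
  conv_rhs => rw [h1, card_union_of_disjoint h2, h3]

lemma card_Bx (p e : ℕ) : (Bx p e).card =
    ((Tup (2 * p ^ e - 2)).filter (fun u => ∀ i, u i < p ^ e)).card := by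
  classical
  refine card_bij (fun v _ => Finsupp.equivFunOnFinite.symm
      ![p ^ e - 1 - (v 0).1, p ^ e - 1 - (v 1).1, (v 2).1, (v 3).1, (v 4).1]) ?_ ?_ ?_
  · intro v hv
    rw [mem_Bx, wt] at hv
    simp only [bx_apply] at hv
    have h0 := (v 0).2
    have h1 := (v 1).2
    have h2 := (v 2).2
    have h3 := (v 3).2
    have h4 := (v 4).2
    rw [mem_filter, mem_Tup]
    constructor
    · simp
      omega
    · intro i
      fin_cases i <;> simp <;> omega
  · intro v hv w hw h
    have h0 := (v 0).2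
    have h1 := (v 1).2
    have h0' := (w 0).2
    have h1' := (w 1).2
    have h2 := DFunLike.congr_fun h 0
    have h3 := DFunLike.congr_fun h 1
    have h4 := DFunLike.congr_fun h 2
    have h5 := DFunLike.congr_fun h 3
    have h6 := DFunLike.congr_fun h 4
    simp at h2 h3 h4 h5 h6
    funext i
    apply Fin.ext
    fin_cases i <;> simp <;> omega
  · intro u hu
    rw [mem_filter, mem_Tup] at hu
    obtain ⟨hu1, hu2⟩ := hu
    have h0 := hu2 0
    have h1 := hu2 1
    have h2 := hu2 2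
    have h3 := hu2 3
    have h4 := hu2 4
    refine ⟨![⟨p ^ e - 1 - u 0, by omega⟩, ⟨p ^ e - 1 - u 1, by omega⟩, ⟨u 2, h2⟩, ⟨u 3, h3⟩,
      ⟨u 4, h4⟩], ?_, ?_⟩
    · rw [mem_Bx, wt]
      simp only [bx_apply]
      simp
      omega
    · ext i
      fin_cases i <;> simp <;> omega

lemma choose_four (n : ℕ) : (24 : ℤ) * ((n + 3).choose 4 : ℤ) =
    (n + 3 : ℤ) * (n + 2) * (n + 1) * n := by
  have h := Nat.descFactorial_eq_factorial_mul_choose (n + 3) 4
  have h4 : Nat.factorial 4 = 24 := rfl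
  rw [h4] at h
  have h5 : (n + 3).descFactorial 4 = n * ((n + 1) * ((n + 2) * (n + 3))) := by
    simp only [Nat.descFactorial_succ, Nat.descFactorial_zero]
    have e1 : n + 3 - 3 = n := by omega
    have e2 : n + 3 - 2 = n + 1 := by omega
    have e3 : n + 3 - 1 = n + 2 := by omega
    have e4 : n + 3 - 0 = n + 3 := by omega
    rw [e1, e2, e3, e4, mul_one]
  rw [h5] at h
  have h6 : ((24 * (n + 3).choose 4 : ℕ) : ℤ) = ((n * ((n + 1) * ((n + 2) * (n + 3))) : ℕ) : ℤ) := by
    rw [h]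
  push_cast at h6
  rw [h6]
  ring

theorem card_Bx_formula (p e : ℕ) (hp : 2 ≤ p) : (24 : ℤ) * ((Bx p e).card : ℤ) =
    11 * ((p ^ e : ℕ) : ℤ) ^ 4 + 6 * ((p ^ e : ℕ) : ℤ) ^ 3 + ((p ^ e : ℕ) : ℤ) ^ 2 +
      6 * ((p ^ e : ℕ) : ℤ) := by
  rcases Nat.eq_zero_or_pos e with rfl | he
  · have : (Bx p 0).card = 1 := by
      rw [card_eq_one]
      refine ⟨fun _ => ⟨0, by simp⟩, ?_⟩
      ext v
      rw [mem_Bx, mem_singleton]
      constructor
      · intro _
        funext i
        apply Fin.ext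
        have := (v i).2
        simp only [pow_zero, Nat.lt_one_iff] at this
        exact this
      · rintro rfl
        simp only [wt, bx_apply]
        norm_num
    rw [this]
    norm_num
  · have hq : 2 ≤ p ^ e := by
      calc 2 ≤ p := hp
        _ = p ^ 1 := (pow_one p).symm
        _ ≤ p ^ e := Nat.pow_le_pow_right (by omega) he
    rw [card_Bx]
    have h1 := card_small (p ^ e) hq
    generalize p ^ e = q at *
    obtain ⟨m, rfl⟩ : ∃ m, q = m + 1 := ⟨q - 1, by omega⟩
    have h2 := choose_four m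
    have h3 := choose_four (2 * m + 1)
    have e1 : m + 1 + 2 = m + 3 := by ring
    have e2 : 2 * (m + 1) + 2 = 2 * m + 1 + 3 := by ring
    rw [e1, e2] at h1
    generalize ((Tup (2 * (m + 1) - 2)).filter (fun u => ∀ i, u i < m + 1)).card = c at *
    zify at h1
    push_cast at h1 h2 h3 ⊢
    linear_combination 24 * h1 + h3 - 5 * h2

theorem tendsto_card (p : ℕ) (hp : 2 ≤ p) :
    Tendsto (fun e : ℕ => ((Bx p e).card : ℝ) / (p : ℝ) ^ (e * 4)) atTop (𝓝 (11 / 24)) := by
  have h0 : (0 : ℝ) < p := by positivity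
  have h1 : Tendsto (fun e : ℕ => (1 / (p : ℝ)) ^ e) atTop (𝓝 0) := by
    apply tendsto_pow_atTop_nhds_zero_of_lt_one
    · positivity
    · rw [div_lt_one h0]
      exact_mod_cast hp
  have h2 : Tendsto (fun e : ℕ => 11 / 24 + 6 / 24 * (1 / (p : ℝ)) ^ e +
      1 / 24 * ((1 / (p : ℝ)) ^ e) ^ 2 + 6 / 24 * ((1 / (p : ℝ)) ^ e) ^ 3) atTop
      (𝓝 (11 / 24 + 6 / 24 * 0 + 1 / 24 * 0 ^ 2 + 6 / 24 * 0 ^ 3)) :=
    ((tendsto_const_nhds.add (h1.const_mul _)).add ((h1.pow 2).const_mul _)).add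
      ((h1.pow 3).const_mul _)
  have h3 : (11 / 24 + 6 / 24 * 0 + 1 / 24 * 0 ^ 2 + 6 / 24 * 0 ^ 3 : ℝ) = 11 / 24 := by norm_num
  rw [h3] at h2
  refine h2.congr ?_
  intro e
  have h4 := card_Bx_formula p e hp
  have h5 : (24 : ℝ) * ((Bx p e).card : ℝ) = 11 * ((p : ℝ) ^ e) ^ 4 + 6 * ((p : ℝ) ^ e) ^ 3 +
      ((p : ℝ) ^ e) ^ 2 + 6 * ((p : ℝ) ^ e) := by
    have := congrArg (fun z : ℤ => (z : ℝ)) h4
    push_cast at this
    exact this
  have h6 : ((Bx p e).card : ℝ) = (11 * ((p : ℝ) ^ e) ^ 4 + 6 * ((p : ℝ) ^ e) ^ 3 +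
      ((p : ℝ) ^ e) ^ 2 + 6 * ((p : ℝ) ^ e)) / 24 := by
    rw [← h5]
    ring
  rw [h6, pow_mul, one_div, inv_pow]
  have h7 : (p : ℝ) ^ e ≠ 0 := by positivity
  generalize (p : ℝ) ^ e = q at *
  field_simp

end Pool.Agent.H215R3.FS
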