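import Mathlib

/-!
# Weil divisors, canonical divisors and F-signatures of pairs: the definitions

`R` is a Noetherian normal local domain of characteristic `p`, with fraction field
`FractionRing R`, and `X = Spec R`.
-/

set_option autoImplicit false

namespace Pool.Agent.H215R3.FS

open IsLocalRing Filter Topology

/-- The prime divisors of `X = Spec R`: the prime ideals of height one. -/
def PrimeDivisor (R : Type) [CommRing R] : Type :=
  {P : Ideal R // P.IsPrime ∧ P.height = 1}

/-- `OrdGE P f n` means `v_P(f) ≥ n`, i.e. `f ∈ (P R_P)^n`, for `f` in the fraction field. For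
`n ≥ 0` it says that `s f ∈ P^n` for some `s ∉ P`; for `n < 0` it says that for every
`a ∈ P^(-n)` there is `s ∉ P` with `s a f ∈ R`. -/
def OrdGE {R : Type} [CommRing R] [IsDomain R] (P : Ideal R) (f : FractionRing R) (n : ℤ) : Prop :=
  ∀ a ∈ P ^ (-n).toNat, ∃ s, s ∉ P ∧ ∃ b ∈ P ^ n.toNat,
    algebraMap R (FractionRing R) s * algebraMap R (FractionRing R) a * f =
      algebraMap R (FractionRing R) b

/-- The divisorial fractional ideal `R(D) = {f : v_P(f) ≥ -D_P for all P}` of an integral Weil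
divisor `D`. -/
def sections {R : Type} [CommRing R] [IsDomain R] (D : PrimeDivisor R →₀ ℤ) :
    Submodule R (FractionRing R) where
  carrier := {f | ∀ P : PrimeDivisor R, OrdGE P.1 f (- D P)}
  zero_mem' := by
    intro P a _
    exact ⟨1, fun h => P.2.1.ne_top ((Ideal.eq_top_iff_one _).2 h), 0, Ideal.zero_mem _, by simp⟩
  add_mem' := by
    intro f g hf hg P a ha
    have hP := P.2.1
    obtain ⟨s, hs, b, hb, h1⟩ := hf P a ha
    obtain ⟨s', hs', b', hb', h2⟩ := hg P a ha
    refine ⟨s * s', fun h => (hP.mem_or_mem h).elim hs hs', s' * b + s * b',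
      Ideal.add_mem _ (Ideal.mul_mem_left _ _ hb) (Ideal.mul_mem_left _ _ hb'), ?_⟩
    rw [map_add, map_mul, map_mul, map_mul, ← h1, ← h2]
    ring
  smul_mem' := by
    intro r f hf P a ha
    obtain ⟨s, hs, b, hb, h1⟩ := hf P a ha
    refine ⟨s, hs, r * b, Ideal.mul_mem_left _ _ hb, ?_⟩
    rw [map_mul, ← h1, Algebra.smul_def]
    ring

/-- The integral Weil divisor `N` is the divisor of the rational function `g`. -/
def IsDivOf {R : Type} [CommRing R] [IsDomain R] (N : PrimeDivisor R →₀ ℤ)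
    (g : FractionRing R) : Prop :=
  g ≠ 0 ∧ ∀ P : PrimeDivisor R, OrdGE P.1 g (N P) ∧ ¬ OrdGE P.1 g (N P + 1)

/-- `N` is Cartier. As `R` is local this means that `N` is principal. -/
def IsCartier {R : Type} [CommRing R] [IsDomain R] (N : PrimeDivisor R →₀ ℤ) : Prop :=
  ∃ g, IsDivOf N g

/-- The `ℚ`-divisor `E` is `ℚ`-Cartier of index prime to `p`: `n E` is (integral and) Cartier for
some `n ≥ 1` not divisible by `p`. -/
def IsQCartierPrimeTo {R : Type} [CommRing R] [IsDomain R] (p : ℕ)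
    (E : PrimeDivisor R →₀ ℚ) : Prop :=
  ∃ n : ℕ, 0 < n ∧ ¬ p ∣ n ∧ ∃ N : PrimeDivisor R →₀ ℤ, (∀ P, (N P : ℚ) = n * E P) ∧ IsCartier N

/-- `K` is a canonical divisor of the `d`-dimensional complete local domain `R` with residue field
`𝔽_p`: `R` is a finite extension of a power series ring `A = 𝔽_p[[t_1, …, t_d]]` such that
`R(K)` is isomorphic, as an `R`-module, to the canonical module `ω_R = Hom_A(R, A)` (with the
`R`-module structure `(r ψ)(s) = ψ(r s)`). -/
def IsCanonicalDivisor {R : Type} [CommRing R] [IsDomain R] (p d : ℕ)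
    (K : PrimeDivisor R →₀ ℤ) : Prop :=
  ∃ j : MvPowerSeries (Fin d) (ZMod p) →+* R, Function.Injective j ∧ j.Finite ∧
    letI := j.toAlgebra
    ∃ Θ : sections K ≃+ (R →ₗ[MvPowerSeries (Fin d) (ZMod p)] MvPowerSeries (Fin d) (ZMod p)),
      ∀ (r : R) (h : sections K) (s : R), Θ (r • h) s = Θ h (r * s)

/-- `F^e_* R`: the abelian group `R`, regarded below as an `R`-module through the `e`-th iterate of
the Frobenius. -/
def FrobPush (_p _e : ℕ) (R : Type) : Type := R

noncomputable instance instAddCommGroupFrobPush (p e : ℕ) (R : Type) [CommRing R] :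
    AddCommGroup (FrobPush p e R) := inferInstanceAs (AddCommGroup R)

/-- The `R`-module structure `r • x = r^(p^e) x` of `F^e_* R`. -/
noncomputable instance instModuleFrobPush (p e : ℕ) (R : Type) [CommRing R] [ExpChar R p] :
    Module R (FrobPush p e R) :=
  letI : Module R (FrobPush p e R) := inferInstanceAs (Module R R)
  Module.compHom (FrobPush p e R) (iterateFrobenius R p e)

/-- The free rank of `M`: the largest `n` such that `R^n` is a direct summand of `M`. -/
noncomputable def freeRank (R M : Type) [CommRing R] [AddCommGroup M] [Module R M] : ℕ :=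
  sSup {n : ℕ | ∃ (i : (Fin n → R) →ₗ[R] M) (π : M →ₗ[R] (Fin n → R)), π ∘ₗ i = LinearMap.id}

/-- `s` is the F-signature `s(R) = lim frk_R(F^e_* R) / p^{ed}` of the `d`-dimensional local ring
`R` of characteristic `p` with perfect residue field. -/
def HasFSignature (R : Type) [CommRing R] (p d : ℕ) [ExpChar R p] (s : ℝ) : Prop :=
  Tendsto (fun e : ℕ => (freeRank R (FrobPush p e R) : ℝ) / (p : ℝ) ^ (e * d)) atTop (𝓝 s)

/-- The rounded up divisor `⌈(p^e - 1) Δ⌉`. -/
noncomputable def roundUp {R : Type} [CommRing R] (p e : ℕ) (Δ : PrimeDivisor R →₀ ℚ) :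
    PrimeDivisor R →₀ ℤ :=
  Δ.mapRange (fun x => ⌈((p : ℚ) ^ e - 1) * x⌉) (by simp)

lemma algebraMap_mem_sections {R : Type} [CommRing R] [IsDomain R] {D : PrimeDivisor R →₀ ℤ}
    (hD : 0 ≤ D) (r : R) : algebraMap R (FractionRing R) r ∈ sections D := by
  intro P a _
  have h0 : (0 : ℤ) ≤ D P := hD P
  have h1 : (- D P).toNat = 0 := by omega
  exact ⟨1, fun h => P.2.1.ne_top ((Ideal.eq_top_iff_one _).2 h), a * r, by simp [h1], by simp⟩

/-- The inclusion `R ⊆ R(D)` for an effective divisor `D`. -/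
noncomputable def inclSections {R : Type} [CommRing R] [IsDomain R] {D : PrimeDivisor R →₀ ℤ}
    (hD : 0 ≤ D) : R →ₗ[R] sections D where
  toFun r := ⟨algebraMap R (FractionRing R) r, algebraMap_mem_sections hD r⟩
  map_add' := fun a b => Subtype.ext (map_add _ a b)
  map_smul' := fun a b => Subtype.ext (by
    change algebraMap R (FractionRing R) (a * b) = a • algebraMap R (FractionRing R) b
    rw [map_mul, Algebra.smul_def])

lemma roundUp_nonneg {R : Type} [CommRing R] {p : ℕ} (hp : 1 ≤ p) (e : ℕ)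
    {Δ : PrimeDivisor R →₀ ℚ} (hΔ : 0 ≤ Δ) : 0 ≤ roundUp p e Δ := by
  intro P
  have h0 : (0 : ℚ) ≤ Δ P := hΔ P
  have h1 : (1 : ℚ) ≤ (p : ℚ) ^ e := one_le_pow₀ (by exact_mod_cast hp)
  exact Int.ceil_nonneg (mul_nonneg (by linarith) h0)

/-- The ideal `I_e^Δ = {r ∈ R : φ(F^e_* r) ∈ 𝔪 for all φ ∈ Hom_R(F^e_* R(⌈(p^e - 1)Δ⌉), R)}` of an
effective `ℚ`-divisor `Δ`. An `R`-linear map `F^e_* R(D) → R` is an additive map `φ : R(D) → R` with
`φ(s^(p^e) f) = s φ(f)`. -/
noncomputable def splittingIdeal {R : Type} [CommRing R] [IsDomain R] [IsLocalRing R] (p e : ℕ)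
    [hp : Fact p.Prime] (Δ : PrimeDivisor R →₀ ℚ) (hΔ : 0 ≤ Δ) : Ideal R where
  carrier := {r | ∀ φ : sections (roundUp p e Δ) →+ R,
    (∀ (s : R) (f : sections (roundUp p e Δ)), φ (s ^ p ^ e • f) = s * φ f) →
      φ (inclSections (roundUp_nonneg hp.out.one_le e hΔ) r) ∈ maximalIdeal R}
  zero_mem' := by
    intro φ _
    rw [map_zero, map_zero]
    exact Ideal.zero_mem _
  add_mem' := by
    intro a b ha hb φ hφ
    rw [map_add, map_add]
    exact Ideal.add_mem _ (ha φ hφ) (hb φ hφ)
  smul_mem' := by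
    intro c a ha φ hφ
    let μ : sections (roundUp p e Δ) →+ sections (roundUp p e Δ) :=
      { toFun := fun f => c • f
        map_zero' := smul_zero c
        map_add' := smul_add c }
    have h1 := ha (φ.comp μ) (by
      intro s f
      change φ (c • s ^ p ^ e • f) = s * φ (c • f)
      rw [smul_comm, hφ])
    rw [map_smul]
    exact h1

/-- `s` is the F-signature `s(R, Δ) = lim ℓ_R(R / I_e^Δ) / p^{ed}` of the pair `(R, Δ)`. -/
def HasFSignaturePair (R : Type) [CommRing R] [IsDomain R] [IsLocalRing R] (p d : ℕ)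
    [Fact p.Prime] (Δ : PrimeDivisor R →₀ ℚ) (hΔ : 0 ≤ Δ) (s : ℝ) : Prop :=
  Tendsto (fun e : ℕ => ((Module.length R (R ⧸ splittingIdeal p e Δ hΔ)).toNat : ℝ) /
    (p : ℝ) ^ (e * d)) atTop (𝓝 s)

end Pool.Agent.H215R3.FS
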