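import Pool.Agent.H215R3.FS.Ring2

set_option autoImplicit false

namespace Pool.Agent.H215R3.FS

open MvPowerSeries

section

variable {p : ℕ} [hp : Fact p.Prime]

/-- splitting off the `x`-variables -/
lemma split_x (j : ℤ) (f : PS p 5) (hf : HasWt j f)
    (h0 : ∀ u : Fin 5 →₀ ℕ, u 0 = 0 → u 1 = 0 → coeff u f = 0) :
    ∃ g0 g1 : PS p 5, HasWt (j - 1) g0 ∧ HasWt (j - 1) g1 ∧ f = X 0 * g0 + X 1 * g1 := by
  classical
  have e0 := split f 0 1
  have e1 := split (restr {u | u 0 < 1} f) 1 1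
  have w0 : HasWt (j - 1) (shift 0 1 f) := by
    have := hasWt_shift hf 0 1
    simpa [ep] using this
  have w1 : HasWt (j - 1) (shift 1 1 (restr {u | u 0 < 1} f)) := by
    have := hasWt_shift (hasWt_restr hf {u | u 0 < 1}) 1 1
    simpa [ep] using this
  refine ⟨_, _, w0, w1, ?_⟩
  have e2 : restr {u | u 1 < 1} (restr {u | u 0 < 1} f) = 0 := by
    ext u
    rw [coeff_restr, coeff_restr, coeff_zero]
    simp only [Set.mem_ofPred_eq]
    split_ifs with h1 h2
    · exact h0 u (by omega) (by omega)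
    · rfl
    · rfl
  rw [e2, add_zero, pow_one] at e1
  rw [pow_one, e1] at e0
  exact e0

/-- splitting off the `y`-variables -/
lemma split_y (j : ℤ) (f : PS p 5) (hf : HasWt j f)
    (h0 : ∀ u : Fin 5 →₀ ℕ, u 2 = 0 → u 3 = 0 → u 4 = 0 → coeff u f = 0) :
    ∃ g2 g3 g4 : PS p 5, HasWt (j + 1) g2 ∧ HasWt (j + 1) g3 ∧ HasWt (j + 1) g4 ∧
      f = X 2 * g2 + X 3 * g3 + X 4 * g4 := by
  classical
  have e0 := split f 2 1
  have e1 := split (restr {u | u 2 < 1} f) 3 1
  have e2 := split (restr {u | u 3 < 1} (restr {u | u 2 < 1} f)) 4 1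
  have w0 : HasWt (j + 1) (shift 2 1 f) := by
    have := hasWt_shift hf 2 1
    simpa [ep] using this
  have w1 : HasWt (j + 1) (shift 3 1 (restr {u | u 2 < 1} f)) := by
    have := hasWt_shift (hasWt_restr hf {u | u 2 < 1}) 3 1
    simpa [ep] using this
  have w2 : HasWt (j + 1) (shift 4 1 (restr {u | u 3 < 1} (restr {u | u 2 < 1} f))) := by
    have := hasWt_shift (hasWt_restr (hasWt_restr hf {u | u 2 < 1}) {u | u 3 < 1}) 4 1
    simpa [ep] using this
  refine ⟨_, _, _, w0, w1, w2, ?_⟩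
  have e3 : restr {u | u 4 < 1} (restr {u | u 3 < 1} (restr {u | u 2 < 1} f)) = 0 := by
    ext u
    rw [coeff_restr, coeff_restr, coeff_restr, coeff_zero]
    simp only [Set.mem_ofPred_eq]
    split_ifs with h1 h2 h3
    · exact h0 u (by omega) (by omega) (by omega)
    · rfl
    · rfl
    · rfl
  rw [e3, add_zero, pow_one] at e2
  rw [pow_one, e2] at e1
  rw [pow_one, e1, ← add_assoc] at e0
  exact e0

lemma split_neg (j : ℤ) (hj : j < 0) (f : PS p 5) (hf : HasWt j f) :
    ∃ g2 g3 g4 : PS p 5, HasWt (j + 1) g2 ∧ HasWt (j + 1) g3 ∧ HasWt (j + 1) g4 ∧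
      f = X 2 * g2 + X 3 * g3 + X 4 * g4 := by
  apply split_y j f hf
  intro u h2 h3 h4
  by_contra hc
  have := hf u hc
  rw [wt, h2, h3, h4] at this
  omega

lemma split_pos (j : ℤ) (hj : 0 < j) (f : PS p 5) (hf : HasWt j f) :
    ∃ g0 g1 : PS p 5, HasWt (j - 1) g0 ∧ HasWt (j - 1) g1 ∧ f = X 0 * g0 + X 1 * g1 := by
  apply split_x j f hf
  intro u h0 h1
  by_contra hc
  have := hf u hc
  rw [wt, h0, h1] at this
  omega

/-- the generators `x_i y_j` -/
noncomputable def zz (i j : Fin 5) (h : ep i + ep j = 0) : DR p :=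
  ⟨X i * X j, by
    have := hasWt_mul (hasWt_X (p := p) i) (hasWt_X j)
    rwa [h] at this⟩

lemma ep01 (i j : Fin 5) (hi : i.val < 2) (hj : 2 ≤ j.val) : ep i + ep j = 0 := by
  simp [ep, hi, not_lt.2 hj]

lemma aux_mem (P : Ideal (DR p)) (i : Fin 5) (hi : i.val < 2)
    (hP : ∀ j : Fin 5, ∀ hj : 2 ≤ j.val, zz i j (ep01 i j hi hj) ∈ P) (g : PS p 5)
    (hg : HasWt (-1) g) (a : DR p) (ha : a.1 = X i * g) : a ∈ P := by
  obtain ⟨g2, g3, g4, w2, w3, w4, h⟩ := split_neg (-1) (by norm_num) g hg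
  rw [neg_add_cancel] at w2 w3 w4
  have : a = zz i 2 (ep01 i 2 hi (by decide)) * ⟨g2, w2⟩ +
      zz i 3 (ep01 i 3 hi (by decide)) * ⟨g3, w3⟩ +
      zz i 4 (ep01 i 4 hi (by decide)) * ⟨g4, w4⟩ := by
    apply Subtype.ext
    rw [ha, h]
    change X i * (X 2 * g2 + X 3 * g3 + X 4 * g4) =
      X i * X 2 * g2 + X i * X 3 * g3 + X i * X 4 * g4
    ring
  rw [this]
  exact P.add_mem (P.add_mem (P.mul_mem_right _ (hP 2 (by decide)))
    (P.mul_mem_right _ (hP 3 (by decide)))) (P.mul_mem_right _ (hP 4 (by decide)))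

lemma max_le (P : Ideal (DR p)) (hP : ∀ i j : Fin 5, ∀ hi : i.val < 2, ∀ hj : 2 ≤ j.val,
    zz i j (ep01 i j hi hj) ∈ P) : IsLocalRing.maximalIdeal (DR p) ≤ P := by
  intro f hf
  rw [mem_max] at hf
  obtain ⟨g0, g1, w0, w1, h⟩ := split_x 0 f.1 f.2 (by
    intro u h0 h1
    by_contra hc
    have hw := f.2 u hc
    rw [wt, h0, h1] at hw
    apply hc
    have : u = 0 := by
      ext i
      fin_cases i <;> simp <;> omega
    rw [this]
    exact hf)
  rw [zero_sub] at w0 w1
  have a0 : HasWt 0 (X 0 * g0) := by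
    have := hasWt_mul (hasWt_X (p := p) 0) w0
    simpa [ep] using this
  have a1 : HasWt 0 (X 1 * g1) := by
    have := hasWt_mul (hasWt_X (p := p) 1) w1
    simpa [ep] using this
  have : f = (⟨_, a0⟩ + ⟨_, a1⟩ : DR p) := Subtype.ext h
  rw [this]
  exact P.add_mem (aux_mem P 0 (by decide) (fun j hj => hP 0 j (by decide) hj) g0 w0 _ rfl)
    (aux_mem P 1 (by decide) (fun j hj => hP 1 j (by decide) hj) g1 w1 _ rfl)

/-- a system of parameters -/
noncomputable def theta (p : ℕ) [Fact p.Prime] : Fin 4 → DR p :=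
  ![zz 0 2 (by decide), zz 0 3 (by decide) + zz 1 2 (by decide),
    zz 0 4 (by decide) + zz 1 3 (by decide), zz 1 4 (by decide)]

lemma theta_mem (i : Fin 4) : theta p i ∈ IsLocalRing.maximalIdeal (DR p) := by
  rw [mem_max]
  have h : ∀ i j : Fin 5, ∀ h, constantCoeff (zz (p := p) i j h).1 = 0 := by
    intro i j h
    change constantCoeff (X i * X j : PS p 5) = 0
    rw [map_mul, constantCoeff_X, zero_mul]
  have h' : ∀ a b : DR p, constantCoeff (a + b).1 = constantCoeff a.1 + constantCoeff b.1 := by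
    intro a b
    exact map_add _ _ _
  fin_cases i
  · exact h 0 2 (by decide)
  · exact (h' _ _).trans (by rw [h, h, add_zero])
  · exact (h' _ _).trans (by rw [h, h, add_zero])
  · exact h 1 4 (by decide)

lemma theta_prime (P : Ideal (DR p)) (hPp : P.IsPrime) (h : Ideal.span (Set.range (theta p)) ≤ P) :
    IsLocalRing.maximalIdeal (DR p) ≤ P := by
  have t : ∀ i, theta p i ∈ P := fun i => h (Ideal.subset_span ⟨i, rfl⟩)
  have t0 : zz 0 2 (by decide) ∈ P := t 0
  have t1 : zz 0 3 (by decide) + zz 1 2 (by decide) ∈ P := t 1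
  have t2 : zz 0 4 (by decide) + zz 1 3 (by decide) ∈ P := t 2
  have t3 : zz 1 4 (by decide) ∈ P := t 3
  have key : ∀ a b c d : DR p, a * b = c * d → a ∈ P → c + d ∈ P → c ∈ P ∧ d ∈ P := by
    intro a b c d h1 ha hcd
    have h2 : c * d ∈ P := by
      rw [← h1]
      exact P.mul_mem_right _ ha
    rcases hPp.mem_or_mem h2 with h3 | h3
    · exact ⟨h3, by simpa using P.sub_mem hcd h3⟩
    · exact ⟨by simpa using P.sub_mem hcd h3, h3⟩
  have r1 : (zz 0 2 (by decide) : DR p) * zz 1 3 (by decide) =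
      zz 0 3 (by decide) * zz 1 2 (by decide) := by
    apply Subtype.ext
    change (X 0 * X 2 : PS p 5) * (X 1 * X 3) = (X 0 * X 3) * (X 1 * X 2)
    ring
  have r2 : (zz 1 4 (by decide) : DR p) * zz 0 3 (by decide) =
      zz 0 4 (by decide) * zz 1 3 (by decide) := by
    apply Subtype.ext
    change (X 1 * X 4 : PS p 5) * (X 0 * X 3) = (X 0 * X 4) * (X 1 * X 3)
    ring
  obtain ⟨s1, s2⟩ := key _ _ _ _ r1 t0 t1
  obtain ⟨s3, s4⟩ := key _ _ _ _ r2 t3 t2
  apply max_le
  intro i j hi hj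
  have hi' : i = 0 ∨ i = 1 := by
    rcases i with ⟨_ | _ | i, hi''⟩
    · exact Or.inl rfl
    · exact Or.inr rfl
    · simp only at hi
      omega
  have hj' : j = 2 ∨ j = 3 ∨ j = 4 := by
    rcases j with ⟨_ | _ | _ | _ | _ | j, hj''⟩
    · simp at hj
    · simp at hj
    · exact Or.inl rfl
    · exact Or.inr (Or.inl rfl)
    · exact Or.inr (Or.inr rfl)
    · omega
  rcases hi' with rfl | rfl
  · rcases hj' with rfl | rfl | rfl
    · exact t0
    · exact s1
    · exact s3
  · rcases hj' with rfl | rfl | rfl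
    · exact s2
    · exact s4
    · exact t3

lemma dim_le : ringKrullDim (DR p) ≤ ((4 : ℕ) : WithBot ℕ∞) := by
  rw [← IsLocalRing.maximalIdeal_height_eq_ringKrullDim (R := DR p)]
  have h1 : IsLocalRing.maximalIdeal (DR p) ∈ (Ideal.span (Set.range (theta p))).minimalPrimes := by
    refine ⟨⟨(IsLocalRing.maximalIdeal.isMaximal _).isPrime, ?_⟩, ?_⟩
    · rw [Ideal.span_le]
      rintro _ ⟨i, rfl⟩
      exact theta_mem i
    · intro P hP _
      exact theta_prime P hP.1 hP.2
  have h3 := Ideal.height_le_card_of_mem_minimalPrimes_span (Set.toFinite _) h1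
  have h4 : (Set.range (theta p)).ncard ≤ 4 := by
    rw [← Set.image_univ]
    refine (Set.ncard_image_le Set.finite_univ).trans ?_
    simp
  have h5 : (IsLocalRing.maximalIdeal (DR p)).height ≤ ((4 : ℕ) : ℕ∞) :=
    h3.trans (by exact_mod_cast h4)
  exact WithBot.coe_le_coe.2 h5

/-- setting variables to `0` -/
noncomputable def kill (a : Fin 5 → ZMod p) : DR p →+* PS p 5 :=
  (rescale a).comp (detRing p).subtype

lemma kill_apply (a : Fin 5 → ZMod p) (f : DR p) (u : Fin 5 →₀ ℕ) :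
    coeff u (kill a f) = (∏ i, a i ^ u i) * coeff u f.1 := by
  change coeff u (rescale a f.1) = _
  rw [coeff_rescale, Finsupp.prod_fintype _ _ (by simp)]

lemma kill_zz (a : Fin 5 → ZMod p) (i j : Fin 5) (h : ep i + ep j = 0) :
    zz i j h ∈ RingHom.ker (kill a) ↔ a i * a j = 0 := by
  classical
  have hX : (X i * X j : PS p 5) = monomial (Finsupp.single i 1 + Finsupp.single j 1) 1 := by
    rw [X_def, X_def, monomial_mul_monomial, one_mul]
  have hp1 : (∏ k, a k ^ (Finsupp.single i 1 + Finsupp.single j 1 : Fin 5 →₀ ℕ) k) = a i * a j := by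
    have : ∀ k, a k ^ (Finsupp.single i 1 + Finsupp.single j 1 : Fin 5 →₀ ℕ) k =
        a k ^ (Finsupp.single i 1 : Fin 5 →₀ ℕ) k * a k ^ (Finsupp.single j 1 : Fin 5 →₀ ℕ) k := by
      intro k
      rw [Finsupp.add_apply, pow_add]
    rw [Finset.prod_congr rfl (fun k _ => this k), Finset.prod_mul_distrib]
    congr 1
    · rw [Finset.prod_eq_single i]
      · simp
      · intro k _ hk
        simp [Ne.symm hk]
      · simp
    · rw [Finset.prod_eq_single j]
      · simp
      · intro k _ hk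
        simp [Ne.symm hk]
      · simp
  rw [RingHom.mem_ker]
  constructor
  · intro h1
    have h2 := congrArg (coeff (Finsupp.single i 1 + Finsupp.single j 1)) h1
    rw [kill_apply, hp1] at h2
    change a i * a j * coeff _ (X i * X j : PS p 5) = _ at h2
    rw [hX, coeff_monomial_same, mul_one, coeff_zero] at h2
    exact h2
  · intro h1
    ext u
    rw [kill_apply]
    change _ * coeff u (X i * X j : PS p 5) = _
    rw [hX, coeff_monomial]
    split_ifs with h3
    · rw [h3, hp1, h1, zero_mul, coeff_zero]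
    · rw [mul_zero, coeff_zero]

lemma kill_le (a b : Fin 5 → ZMod p) (h : ∀ i, b i = 0 ∨ b i = a i) :
    RingHom.ker (kill a) ≤ RingHom.ker (kill b) := by
  intro f hf
  rw [RingHom.mem_ker] at hf ⊢
  ext u
  have h1 := congrArg (coeff u) hf
  rw [kill_apply, coeff_zero] at h1
  rw [kill_apply, coeff_zero]
  by_cases h2 : ∀ i, b i = a i
  · rw [Finset.prod_congr rfl (fun i _ => by rw [h2 i])]
    exact h1
  · by_cases h3 : ∃ i, b i = 0 ∧ u i ≠ 0
    · obtain ⟨i, h4, h5⟩ := h3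
      rw [Finset.prod_eq_zero (Finset.mem_univ i) (by rw [h4, zero_pow h5]), zero_mul]
    · push Not at h3
      have : ∀ i ∈ Finset.univ, b i ^ u i = a i ^ u i := by
        intro i _
        rcases h i with h4 | h4
        · rw [h3 i h4, pow_zero, pow_zero]
        · rw [h4]
      rw [Finset.prod_congr rfl this]
      exact h1

lemma kill_prime (a : Fin 5 → ZMod p) : (RingHom.ker (kill a)).IsPrime := by
  have : IsDomain (PS p 5) := NoZeroDivisors.to_isDomain _
  exact RingHom.ker_isPrime _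

/-- the chain of primes -/
noncomputable def chn (p : ℕ) [Fact p.Prime] : Fin 5 → PrimeSpectrum (DR p) :=
  ![⟨_, kill_prime ![1, 1, 1, 1, 1]⟩, ⟨_, kill_prime ![0, 1, 1, 1, 1]⟩,
    ⟨_, kill_prime ![0, 1, 0, 1, 1]⟩, ⟨_, kill_prime ![0, 1, 0, 0, 1]⟩,
    ⟨_, kill_prime ![0, 1, 0, 0, 0]⟩]

lemma chn_lt (i : Fin 4) : chn p i.castSucc < chn p i.succ := by
  have h10 : (1 : ZMod p) ≠ 0 := one_ne_zero
  have key : ∀ (a b : Fin 5 → ZMod p) (i j : Fin 5) (h : ep i + ep j = 0),
      (∀ i, b i = 0 ∨ b i = a i) → a i * a j ≠ 0 → b i * b j = 0 →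
      (⟨_, kill_prime a⟩ : PrimeSpectrum (DR p)) < ⟨_, kill_prime b⟩ := by
    intro a b i j h h1 h2 h3
    refine lt_of_le_of_ne (kill_le a b h1) ?_
    intro h4
    have h5 := congrArg PrimeSpectrum.asIdeal h4
    have h6 : zz i j h ∈ RingHom.ker (kill b) := (kill_zz b i j h).2 h3
    change RingHom.ker (kill a) = RingHom.ker (kill b) at h5
    rw [← h5] at h6
    exact h2 ((kill_zz a i j h).1 h6)
  fin_cases i
  · refine key _ _ 0 2 (by decide) ?_ ?_ ?_
    · intro k; fin_cases k <;> simp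
    · simp
    · simp
  · refine key _ _ 1 2 (by decide) ?_ ?_ ?_
    · intro k; fin_cases k <;> simp
    · simp
    · simp
  · refine key _ _ 1 3 (by decide) ?_ ?_ ?_
    · intro k; fin_cases k <;> simp
    · simp
    · simp
  · refine key _ _ 1 4 (by decide) ?_ ?_ ?_
    · intro k; fin_cases k <;> simp
    · simp
    · simp

lemma dim_ge : ((4 : ℕ) : WithBot ℕ∞) ≤ ringKrullDim (DR p) := by
  unfold ringKrullDim
  rw [Order.le_krullDim_iff]
  exact ⟨⟨4, chn p, chn_lt⟩, rfl⟩

theorem dim_DR : ringKrullDim (DR p) = ((4 : ℕ) : WithBot ℕ∞) := le_antisymm dim_le dim_ge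

end

end Pool.Agent.H215R3.FS
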