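import Pool.Agent.H215R3.FS.Defs

set_option autoImplicit false

namespace Pool.Agent.H215R3.FS

open IsLocalRing

section

variable {R : Type} [CommRing R] [IsDomain R]

omit [IsDomain R] in
lemma im_inj {a b : R} (h : algebraMap R (FractionRing R) a = algebraMap R (FractionRing R) b) :
    a = b := IsFractionRing.injective R (FractionRing R) h

omit [IsDomain R] in
lemma im_ne {a : R} (h : a ≠ 0) : algebraMap R (FractionRing R) a ≠ 0 := by
  intro h1
  exact h (im_inj (by rw [h1, map_zero]))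

variable [IsNoetherianRing R] [IsIntegrallyClosed R]

lemma dvr (P : Ideal R) [hP : P.IsPrime] (h1 : P.height = 1) :
    IsDiscreteValuationRing (Localization.AtPrime P) := by
  have hne : P ≠ ⊥ := by
    rintro rfl
    rw [Ideal.height_bot] at h1
    exact zero_ne_one h1
  have hf : ¬ IsField (Localization.AtPrime P) := by
    rw [IsLocalRing.isField_iff_maximalIdeal_eq]
    intro h
    apply hne
    rw [eq_bot_iff]
    intro x hx
    have h2 : algebraMap R (Localization.AtPrime P) x ∈ maximalIdeal (Localization.AtPrime P) := by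
      rw [← Localization.AtPrime.map_eq_maximalIdeal]
      exact Ideal.mem_map_of_mem _ hx
    rw [h, Ideal.mem_bot] at h2
    rw [Ideal.mem_bot]
    exact (IsLocalization.injective (Localization.AtPrime P) P.primeCompl_le_nonZeroDivisors)
      (by rw [h2, map_zero])
  have hI : IsIntegrallyClosed (Localization.AtPrime P) :=
    isIntegrallyClosed_of_isLocalization _ P.primeCompl P.primeCompl_le_nonZeroDivisors
  have hdim : ringKrullDim (Localization.AtPrime P) = 1 := by
    rw [IsLocalization.AtPrime.ringKrullDim_eq_height P, h1]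
    rfl
  have hle : Ring.KrullDimLE 1 (Localization.AtPrime P) :=
    Ring.krullDimLE_iff.mpr (by rw [hdim]; rfl)
  have hD : IsDiscreteValuationRing (Localization.AtPrime P) ↔
      (IsIntegrallyClosed (Localization.AtPrime P) ∧
        ∃! Q : Ideal (Localization.AtPrime P), Q ≠ ⊥ ∧ Q.IsPrime) :=
    (IsDiscreteValuationRing.TFAE (Localization.AtPrime P) hf).out 0 3
  refine hD.2 ⟨hI, maximalIdeal _, ?_, ?_⟩
  · exact ⟨fun h => hf ((IsLocalRing.isField_iff_maximalIdeal_eq).2 h), inferInstance⟩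
  · rintro Q ⟨hQ1, hQ2⟩
    exact IsLocalRing.eq_maximalIdeal
      ((Ring.krullDimLE_one_iff_of_noZeroDivisors.1 hle) Q hQ1 hQ2)

/-- Existence of a uniformizer. -/
lemma exists_unif (P : Ideal R) [hP : P.IsPrime] (h1 : P.height = 1) :
    ∃ t ∈ P, t ≠ 0 ∧ (∀ a : R, a ≠ 0 → ∃ m : ℕ, ∃ s, s ∉ P ∧ ∃ u, u ∉ P ∧ s * a = t ^ m * u) ∧
      (∀ (k : ℕ), ∀ a ∈ P ^ k, ∃ s, s ∉ P ∧ ∃ c, s * a = t ^ k * c) := by
  have hD := dvr P h1
  set O := Localization.AtPrime P
  have hinj : Function.Injective (algebraMap R O) :=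
    IsLocalization.injective O P.primeCompl_le_nonZeroDivisors
  obtain ⟨ϖ, hϖ⟩ := IsDiscreteValuationRing.exists_irreducible O
  obtain ⟨t, s0, hts⟩ := IsLocalization.exists_mk'_eq P.primeCompl ϖ
  have hs0 : IsUnit (algebraMap R O s0) := IsLocalization.map_units O s0
  have hass : Associated ϖ (algebraMap R O t) := by
    refine ⟨hs0.unit, ?_⟩
    rw [← hts]
    exact IsLocalization.mk'_spec O t s0
  have ht : Irreducible (algebraMap R O t) := hass.irreducible hϖ
  have htP : t ∈ P := by
    rw [← IsLocalization.AtPrime.to_map_mem_maximal_iff O P]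
    exact ht.not_isUnit
  have ht0 : t ≠ 0 := by
    rintro rfl
    rw [map_zero] at ht
    exact not_irreducible_zero ht
  have hunit : ∀ w : O, IsUnit w → ∃ u, u ∉ P ∧ ∃ s, s ∉ P ∧ w * algebraMap R O s =
      algebraMap R O u := by
    intro w hw
    obtain ⟨u, s, hus⟩ := IsLocalization.exists_mk'_eq P.primeCompl w
    refine ⟨u, ?_, s, s.2, ?_⟩
    · intro hu
      rw [← IsLocalization.AtPrime.to_map_mem_maximal_iff O P] at hu
      apply hu
      have := IsLocalization.mk'_spec O u s
      rw [← this, hus]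
      exact hw.mul (IsLocalization.map_units O s)
    · rw [← hus]
      exact IsLocalization.mk'_spec O u s
  refine ⟨t, htP, ht0, ?_, ?_⟩
  · intro a ha
    have ha' : algebraMap R O a ≠ 0 := fun h => ha (hinj (by rw [h, map_zero]))
    obtain ⟨n, hn⟩ := IsDiscreteValuationRing.associated_pow_irreducible ha' ht
    obtain ⟨w, hw⟩ := hn.symm
    obtain ⟨u, hu, s, hs, hus⟩ := hunit w w.isUnit
    refine ⟨n, s, hs, u, hu, hinj ?_⟩
    rw [map_mul, map_mul, map_pow, ← hus, ← hw]
    ring
  · intro k a ha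
    have h2 : algebraMap R O a ∈ (maximalIdeal O) ^ k := by
      rw [← Localization.AtPrime.map_eq_maximalIdeal, ← Ideal.map_pow]
      exact Ideal.mem_map_of_mem _ ha
    rw [ht.maximalIdeal_eq, Ideal.span_singleton_pow, Ideal.mem_span_singleton] at h2
    obtain ⟨c, hc⟩ := h2
    obtain ⟨c', s, hcs⟩ := IsLocalization.exists_mk'_eq P.primeCompl c
    refine ⟨s, s.2, c', hinj ?_⟩
    rw [map_mul, map_mul, map_pow, hc, ← IsLocalization.mk'_spec O c' s, hcs]
    ring

/-- `f` has order exactly `m` at `P`, with respect to `t`. -/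
def HasOrd (P : Ideal R) (t : R) (f : FractionRing R) (m : ℤ) : Prop :=
  ∃ s, s ∉ P ∧ ∃ u, u ∉ P ∧ algebraMap R (FractionRing R) s * f =
    (algebraMap R (FractionRing R) t) ^ m * algebraMap R (FractionRing R) u

/-- `t` is a uniformizer at `P`. -/
def IsUnif (P : Ideal R) (t : R) : Prop :=
  t ∈ P ∧ t ≠ 0 ∧ (∀ a : R, a ≠ 0 → ∃ m : ℕ, ∃ s, s ∉ P ∧ ∃ u, u ∉ P ∧ s * a = t ^ m * u) ∧
      (∀ (k : ℕ), ∀ a ∈ P ^ k, ∃ s, s ∉ P ∧ ∃ c, s * a = t ^ k * c)

omit [IsNoetherianRing R] [IsIntegrallyClosed R] in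
lemma hasOrd_exists {P : Ideal R} [hP : P.IsPrime] {t : R} (ht : IsUnif P t)
    {f : FractionRing R} (hf : f ≠ 0) : ∃ m, HasOrd P t f m := by
  obtain ⟨a, b, hb, rfl⟩ := IsFractionRing.div_surjective (A := R) f
  have hb0 : b ≠ 0 := nonZeroDivisors.ne_zero hb
  have ha0 : a ≠ 0 := by
    rintro rfl
    simp at hf
  obtain ⟨m, s, hs, u, hu, h1⟩ := ht.2.2.1 a ha0
  obtain ⟨m', s', hs', u', hu', h2⟩ := ht.2.2.1 b hb0
  have e1 := congrArg (algebraMap R (FractionRing R)) h1
  have e2 := congrArg (algebraMap R (FractionRing R)) h2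
  simp only [map_mul, map_pow] at e1 e2
  have t0 := im_ne ht.2.1
  have b0 := im_ne hb0
  refine ⟨m - m', s * u', ?_, s' * u, ?_, ?_⟩
  · exact fun h => (hP.mem_or_mem h).elim hs hu'
  · exact fun h => (hP.mem_or_mem h).elim hs' hu
  · rw [zpow_sub₀ t0, zpow_natCast, zpow_natCast, map_mul, map_mul]
    field_simp
    calc _ = (algebraMap R (FractionRing R) s * algebraMap R (FractionRing R) a) *
          (algebraMap R (FractionRing R) t ^ m' * algebraMap R (FractionRing R) u') := by ring
      _ = _ := by rw [e1, ← e2]; ring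

omit [IsNoetherianRing R] [IsIntegrallyClosed R] in
lemma hasOrd_mul {P : Ideal R} [hP : P.IsPrime] {t : R} (ht : IsUnif P t)
    {f g : FractionRing R} {m n : ℤ} (hf : HasOrd P t f m) (hg : HasOrd P t g n) :
    HasOrd P t (f * g) (m + n) := by
  obtain ⟨s, hs, u, hu, h1⟩ := hf
  obtain ⟨s', hs', u', hu', h2⟩ := hg
  refine ⟨s * s', fun h => (hP.mem_or_mem h).elim hs hs', u * u',
    fun h => (hP.mem_or_mem h).elim hu hu', ?_⟩
  rw [zpow_add₀ (im_ne ht.2.1), map_mul, map_mul]
  calc _ = (algebraMap R (FractionRing R) s * f) * (algebraMap R (FractionRing R) s' * g) := by ring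
    _ = _ := by rw [h1, h2]; ring

omit [IsNoetherianRing R] [IsIntegrallyClosed R] in
lemma hasOrd_one {P : Ideal R} [hP : P.IsPrime] {t : R} : HasOrd P t 1 0 :=
  ⟨1, fun h => hP.ne_top ((Ideal.eq_top_iff_one P).2 h), 1,
    fun h => hP.ne_top ((Ideal.eq_top_iff_one P).2 h), by simp⟩

omit [IsNoetherianRing R] [IsIntegrallyClosed R] in
lemma hasOrd_pow {P : Ideal R} [hP : P.IsPrime] {t : R} (ht : IsUnif P t)
    {f : FractionRing R} {m : ℤ} (hf : HasOrd P t f m) (k : ℕ) :
    HasOrd P t (f ^ k) (k * m) := by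
  induction k with
  | zero => simpa using hasOrd_one
  | succ k ih =>
    have := hasOrd_mul ht ih hf
    rw [← pow_succ] at this
    convert this using 1
    push_cast
    ring

omit [IsNoetherianRing R] [IsIntegrallyClosed R] in
/-- The relation between `OrdGE` and `HasOrd`. -/
lemma ordGE_iff {P : Ideal R} [hP : P.IsPrime] {t : R} (ht : IsUnif P t)
    {f : FractionRing R} {m : ℤ} (hf : HasOrd P t f m) (n : ℤ) : OrdGE P f n ↔ n ≤ m := by
  have t0 := im_ne ht.2.1
  obtain ⟨s, hs, u, hu, h1⟩ := hf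
  have hs0 : s ≠ 0 := by rintro rfl; exact hs P.zero_mem
  have hu0 : u ≠ 0 := by rintro rfl; exact hu P.zero_mem
  constructor
  · intro h
    obtain ⟨s', hs', b, hb, h2⟩ := h (t ^ (-n).toNat) (Ideal.pow_mem_pow ht.1 _)
    obtain ⟨s'', hs'', c, h3⟩ := ht.2.2.2 _ b hb
    have e3 := congrArg (algebraMap R (FractionRing R)) h3
    simp only [map_mul, map_pow] at e3 h2
    by_contra hc
    push Not at hc
    -- `s'' s' t^k (t^m u) = s t^{n'} c`
    have e4 : algebraMap R (FractionRing R) (s'' * s' * u) *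
        algebraMap R (FractionRing R) t ^ (((-n).toNat : ℤ) + m) =
        algebraMap R (FractionRing R) (s * c) * algebraMap R (FractionRing R) t ^ (n.toNat : ℤ) := by
      rw [zpow_add₀ t0, zpow_natCast, zpow_natCast, map_mul, map_mul, map_mul]
      calc _ = algebraMap R (FractionRing R) s'' * (algebraMap R (FractionRing R) s' *
            algebraMap R (FractionRing R) t ^ (-n).toNat *
            (algebraMap R (FractionRing R) t ^ m * algebraMap R (FractionRing R) u)) := by ring
        _ = algebraMap R (FractionRing R) s * (algebraMap R (FractionRing R) s'' *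
            (algebraMap R (FractionRing R) s' *
            algebraMap R (FractionRing R) t ^ (-n).toNat * f)) := by rw [← h1]; ring
        _ = _ := by rw [h2, e3]; ring
    obtain ⟨j, hj⟩ : ∃ j : ℕ, (n.toNat : ℤ) = ((-n).toNat : ℤ) + m + (j + 1) := by
      refine ⟨((n.toNat : ℤ) - (((-n).toNat : ℤ) + m) - 1).toNat, ?_⟩
      omega
    rw [hj, zpow_add₀ t0 _ ((j : ℤ) + 1)] at e4
    have e5 : algebraMap R (FractionRing R) (s'' * s' * u) =
        algebraMap R (FractionRing R) (s * c * t ^ (j + 1)) := by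
      have tz : algebraMap R (FractionRing R) t ^ (((-n).toNat : ℤ) + m) ≠ 0 := zpow_ne_zero _ t0
      apply mul_right_cancel₀ tz
      rw [e4, map_mul _ (s * c), map_pow, ← zpow_natCast _ (j + 1)]
      push_cast
      ring
    have e6 := im_inj e5
    have e7 : s'' * s' * u ∈ P := by
      rw [e6, pow_succ]
      exact Ideal.mul_mem_left _ _ (Ideal.mul_mem_left _ _ ht.1)
    rcases hP.mem_or_mem e7 with h | h
    · exact (hP.mem_or_mem h).elim hs'' hs'
    · exact hu h
  · intro hn a ha
    obtain ⟨s', hs', c, h2⟩ := ht.2.2.2 _ a ha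
    have e2 := congrArg (algebraMap R (FractionRing R)) h2
    simp only [map_mul, map_pow] at e2
    obtain ⟨j, hj⟩ : ∃ j : ℕ, ((-n).toNat : ℤ) + m = n.toNat + j := by
      refine ⟨(((-n).toNat : ℤ) + m - n.toNat).toNat, ?_⟩
      omega
    refine ⟨s' * s, fun h => (hP.mem_or_mem h).elim hs' hs, t ^ (n.toNat) * (t ^ j * (c * u)),
      Ideal.mul_mem_right _ _ (Ideal.pow_mem_pow ht.1 _), ?_⟩
    rw [map_mul, map_mul, map_mul, map_mul, map_pow, map_pow]
    calc _ = (algebraMap R (FractionRing R) s' * algebraMap R (FractionRing R) a) *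
          (algebraMap R (FractionRing R) s * f) := by ring
      _ = (algebraMap R (FractionRing R) t ^ (((-n).toNat : ℤ) + m)) *
          (algebraMap R (FractionRing R) c * algebraMap R (FractionRing R) u) := by
        rw [e2, h1, zpow_add₀ t0, zpow_natCast]
        ring
      _ = _ := by
        rw [hj, zpow_add₀ t0, zpow_natCast, zpow_natCast]
        ring

omit [IsNoetherianRing R] [IsIntegrallyClosed R] in
lemma hasOrd_unique {P : Ideal R} [hP : P.IsPrime] {t : R} (ht : IsUnif P t)
    {f : FractionRing R} {m n : ℤ} (hf : HasOrd P t f m) (hg : HasOrd P t f n) : m = n :=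
  le_antisymm ((ordGE_iff ht hg m).1 ((ordGE_iff ht hf m).2 le_rfl))
    ((ordGE_iff ht hf n).1 ((ordGE_iff ht hg n).2 le_rfl))

omit [IsNoetherianRing R] [IsIntegrallyClosed R] in
lemma ordGE_zero (P : Ideal R) [hP : P.IsPrime] (n : ℤ) : OrdGE P (0 : FractionRing R) n :=
  fun a _ => ⟨1, fun h => hP.ne_top ((Ideal.eq_top_iff_one P).2 h), 0, Ideal.zero_mem _, by simp⟩

end

end Pool.Agent.H215R3.FS
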