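import Pool.Agent.H215R3.FS.Div

set_option autoImplicit false

namespace Pool.Agent.H215R3.FS

open IsLocalRing

lemma mem_sections {R : Type} [CommRing R] [IsDomain R] (D : PrimeDivisor R →₀ ℤ)
    (f : FractionRing R) : f ∈ sections D ↔ ∀ P : PrimeDivisor R, OrdGE P.1 f (- D P) := Iff.rfl

section

variable {R : Type} [CommRing R] [IsDomain R] [IsNoetherianRing R] [IsIntegrallyClosed R]

lemma unif (P : PrimeDivisor R) : ∃ t, IsUnif P.1 t := by
  have := P.2.1
  obtain ⟨t, h1, h2, h3, h4⟩ := exists_unif P.1 P.2.2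
  exact ⟨t, h1, h2, h3, h4⟩

omit [IsIntegrallyClosed R] [IsDomain R] in
lemma not_le_of_ne {P Q : PrimeDivisor R} (h : P ≠ Q) : ¬ P.1 ≤ Q.1 := by
  intro hle
  have hP := P.2.1
  have hQ := Q.2.1
  have hlt : P.1 < Q.1 := lt_of_le_of_ne hle (fun h' => h (Subtype.ext h'))
  have := Ideal.height_strict_mono_of_isPrime_of_isPrime hlt
  rw [P.2.2, Q.2.2] at this
  exact lt_irrefl _ this

omit [IsNoetherianRing R] [IsIntegrallyClosed R] in
lemma ordGE_of_mem {P : Ideal R} [hP : P.IsPrime] {a : R} {n : ℕ} (ha : a ∈ P ^ n) :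
    OrdGE P (algebraMap R (FractionRing R) a) n := by
  intro b _
  refine ⟨1, fun h => hP.ne_top ((Ideal.eq_top_iff_one P).2 h), b * a, ?_, ?_⟩
  · rw [Int.toNat_natCast]
    exact Ideal.mul_mem_left _ _ ha
  · rw [map_one, one_mul, map_mul]

/-- approximation: a section of `R(D)` of exact order `-D_P` at a given `P`. -/
lemma exists_section (D : PrimeDivisor R →₀ ℤ) (P : PrimeDivisor R) {t : R} (ht : IsUnif P.1 t) :
    ∃ f ∈ sections D, f ≠ 0 ∧ HasOrd P.1 t f (- D P) := by
  classical
  have hP := P.2.1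
  -- step 1: an element with the right order at `P` and no poles elsewhere
  have step1 : ∃ f : FractionRing R, f ≠ 0 ∧ HasOrd P.1 t f (- D P) ∧
      ∀ Q : PrimeDivisor R, Q ≠ P → OrdGE Q.1 f 0 := by
    by_cases hn : 0 ≤ - D P
    · obtain ⟨n, hn'⟩ := Int.eq_ofNat_of_zero_le hn
      refine ⟨algebraMap R (FractionRing R) (t ^ n), im_ne (pow_ne_zero _ ht.2.1), ?_, ?_⟩
      · rw [hn']
        refine ⟨1, fun h => hP.ne_top ((Ideal.eq_top_iff_one _).2 h), 1,
          fun h => hP.ne_top ((Ideal.eq_top_iff_one _).2 h), ?_⟩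
        rw [map_one, one_mul, mul_one, zpow_natCast, map_pow]
      · intro Q _
        have := Q.2.1
        exact ordGE_of_mem (n := 0) (by simp)
    · push Not at hn
      obtain ⟨k, hk⟩ : ∃ k : ℕ, - D P = - (k : ℤ) := ⟨(D P).toNat, by omega⟩
      obtain ⟨G, hG⟩ := (isNoetherianRing_iff_ideal_fg R).1 inferInstance (P.1 ^ k)
      have hG' : ∀ g ∈ G, g ∈ P.1 ^ k := fun g hg => by
        rw [← hG]; exact Ideal.subset_span hg
      have hch : ∀ g : R, ∃ s, s ∉ P.1 ∧ (g ∈ G → ∃ c, s * g = t ^ k * c) := by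
        intro g
        by_cases hg : g ∈ G
        · obtain ⟨s, hs, c, hc⟩ := ht.2.2.2 k g (hG' g hg)
          exact ⟨s, hs, fun _ => ⟨c, hc⟩⟩
        · exact ⟨1, fun h => hP.ne_top ((Ideal.eq_top_iff_one _).2 h), fun h => absurd h hg⟩
      choose σ hσ1 hσ2 using hch
      set s := ∏ g ∈ G, σ g with hs
      have hsP : s ∉ P.1 := by
        rw [hs]
        intro h
        obtain ⟨g, _, hg⟩ := (hP.prod_mem_iff).1 h
        exact hσ1 g hg
      have hsG : ∀ a ∈ P.1 ^ k, ∃ c, s * a = t ^ k * c := by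
        intro a ha
        rw [← hG] at ha
        have : Ideal.span (G : Set R) ≤
            Submodule.comap (LinearMap.mulLeft R s) (Ideal.span {t ^ k}) := by
          rw [Ideal.span_le]
          intro g hg
          obtain ⟨c, hc⟩ := hσ2 g hg
          change s * g ∈ Ideal.span {t ^ k}
          rw [Ideal.mem_span_singleton, hs, ← Finset.mul_prod_erase G σ hg]
          exact ⟨(∏ x ∈ G.erase g, σ x) * c, by
            calc σ g * (∏ x ∈ G.erase g, σ x) * g = (∏ x ∈ G.erase g, σ x) * (σ g * g) := by ring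
              _ = _ := by rw [hc]; ring⟩
        have h2 := this ha
        change s * a ∈ Ideal.span {t ^ k} at h2
        rw [Ideal.mem_span_singleton] at h2
        exact h2
      have t0 := im_ne ht.2.1
      have hs0 : s ≠ 0 := fun h => hsP (h ▸ P.1.zero_mem)
      refine ⟨algebraMap R (FractionRing R) s / algebraMap R (FractionRing R) t ^ k,
        div_ne_zero (im_ne hs0) (pow_ne_zero _ t0), ?_, ?_⟩
      · rw [hk]
        refine ⟨1, fun h => hP.ne_top ((Ideal.eq_top_iff_one _).2 h), s, hsP, ?_⟩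
        rw [map_one, one_mul, zpow_neg, zpow_natCast, div_eq_mul_inv, mul_comm]
      · intro Q hQ a _
        have hQp := Q.2.1
        obtain ⟨b, hb, hb'⟩ := SetLike.not_le_iff_exists.1 (not_le_of_ne (Ne.symm hQ))
        obtain ⟨c, hc⟩ := hsG (b ^ k) (Ideal.pow_mem_pow hb k)
        refine ⟨b ^ k, fun h => hb' (hQp.mem_of_pow_mem _ h), a * c, by simp, ?_⟩
        have e := congrArg (algebraMap R (FractionRing R)) hc
        simp only [map_mul, map_pow] at e
        rw [map_pow, map_mul]
        field_simp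
        linear_combination (algebraMap R (FractionRing R) a) * e
  obtain ⟨f1, hf10, hf1P, hf1Q⟩ := step1
  -- step 2: kill the poles of `-D` elsewhere
  have hch : ∀ Q : PrimeDivisor R, ∃ a : R, a ∉ P.1 ∧ (Q ≠ P → a ∈ Q.1) := by
    intro Q
    by_cases hQ : Q = P
    · exact ⟨1, fun h => hP.ne_top ((Ideal.eq_top_iff_one _).2 h), fun h => absurd hQ h⟩
    · obtain ⟨b, hb, hb'⟩ := SetLike.not_le_iff_exists.1 (not_le_of_ne hQ)
      exact ⟨b, hb', fun _ => hb⟩
  choose α hα1 hα2 using hch
  set s' := ∏ Q ∈ D.support, α Q ^ (D Q).natAbs with hs'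
  have hs'P : s' ∉ P.1 := by
    rw [hs']
    intro h
    obtain ⟨Q, _, hQ⟩ := (hP.prod_mem_iff).1 h
    exact hα1 Q (hP.mem_of_pow_mem _ hQ)
  have hs'0 : s' ≠ 0 := fun h => hs'P (h ▸ P.1.zero_mem)
  refine ⟨f1 * algebraMap R (FractionRing R) s', ?_, mul_ne_zero hf10 (im_ne hs'0), ?_⟩
  · rw [mem_sections]
    intro Q
    by_cases hQ : Q = P
    · subst hQ
      have h1 : HasOrd Q.1 t (algebraMap R (FractionRing R) s') 0 :=
        ⟨1, fun h => hP.ne_top ((Ideal.eq_top_iff_one _).2 h), s', hs'P, by simp⟩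
      rw [ordGE_iff ht (hasOrd_mul ht hf1P h1), add_zero]
    · have hQp := Q.2.1
      obtain ⟨τ, hτ⟩ := unif Q
      obtain ⟨m, hm⟩ := hasOrd_exists hτ hf10
      obtain ⟨m', hm'⟩ := hasOrd_exists hτ (im_ne hs'0)
      rw [ordGE_iff hτ (hasOrd_mul hτ hm hm')]
      have h1 : 0 ≤ m := (ordGE_iff hτ hm 0).1 (hf1Q Q hQ)
      have h2 : ((D Q).natAbs : ℤ) ≤ m' := by
        refine (ordGE_iff hτ hm' _).1 (ordGE_of_mem ?_)
        by_cases hQs : Q ∈ D.support
        · rw [hs', ← Finset.mul_prod_erase _ _ hQs]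
          exact Ideal.mul_mem_right _ _ (Ideal.pow_mem_pow (hα2 Q hQ) _)
        · rw [Finsupp.notMem_support_iff.1 hQs]
          simp
      omega
  · have h1 : HasOrd P.1 t (algebraMap R (FractionRing R) s') 0 :=
      ⟨1, fun h => hP.ne_top ((Ideal.eq_top_iff_one _).2 h), s', hs'P, by simp⟩
    simpa using hasOrd_mul ht hf1P h1

/-- `R` is the intersection of its localizations at primes of height one. -/
lemma mem_of_ordGE (f : FractionRing R) (hf : ∀ P : PrimeDivisor R, OrdGE P.1 f 0) :
    ∃ r, algebraMap R (FractionRing R) r = f := by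
  classical
  by_contra hcon
  -- the ideal of denominators
  let den : FractionRing R → Ideal R := fun c =>
    (LinearMap.range (Algebra.linearMap R (FractionRing R))).comap
      (LinearMap.toSpanSingleton R (FractionRing R) c)
  have hden : ∀ c r, r ∈ den c ↔ ∃ x, algebraMap R (FractionRing R) x =
      algebraMap R (FractionRing R) r * c := by
    intro c r
    rw [Submodule.mem_comap, LinearMap.mem_range, LinearMap.toSpanSingleton_apply,
      Algebra.smul_def]
    rfl
  let 𝒮 : Set (Ideal R) := {I | den f ≤ I ∧ ∃ c, I = den c ∧ (1 : R) ∉ den c}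
  have hne : 𝒮.Nonempty := by
    refine ⟨den f, le_rfl, f, rfl, ?_⟩
    rw [hden]
    rintro ⟨x, hx⟩
    exact hcon ⟨x, by simpa using hx⟩
  have hmx : ∃ P : Ideal R, P ∈ 𝒮 ∧ ∀ I ∈ 𝒮, ¬ P < I := by
    obtain ⟨P, h1, h2⟩ := (set_has_maximal_iff_noetherian (R := R) (M := R)).2 inferInstance 𝒮 hne
    exact ⟨P, h1, h2⟩
  obtain ⟨P, ⟨hPf, c, hPc, hc1⟩, hmax⟩ := hmx
  have hPprime : P.IsPrime := by
    refine ⟨?_, ?_⟩
    · rw [Ideal.ne_top_iff_one, hPc]
      exact hc1
    · intro a b hab
      by_contra hcc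
      push Not at hcc
      obtain ⟨ha, hb⟩ := hcc
      have h1 : P ≤ den (algebraMap R (FractionRing R) a * c) := by
        intro r hr
        rw [hPc, hden] at hr
        rw [hden]
        obtain ⟨x, hx⟩ := hr
        exact ⟨a * x, by rw [map_mul, hx]; ring⟩
      have h2 : (1 : R) ∉ den (algebraMap R (FractionRing R) a * c) := by
        intro h
        apply ha
        rw [hPc, hden]
        rw [hden, map_one, one_mul] at h
        exact h
      have h3 := hmax _ ⟨hPf.trans h1, _, rfl, h2⟩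
      have h4 : P = den (algebraMap R (FractionRing R) a * c) := by
        by_contra hne'
        exact h3 (lt_of_le_of_ne h1 hne')
      apply hb
      rw [h4, hden]
      rw [hPc, hden] at hab
      obtain ⟨x, hx⟩ := hab
      exact ⟨x, by rw [hx, map_mul]; ring⟩
  have hPbot : P ≠ ⊥ := by
    obtain ⟨a, b, hb, hab⟩ := IsFractionRing.div_surjective (A := R) c
    have hb0 : b ≠ 0 := nonZeroDivisors.ne_zero hb
    intro h
    apply hb0
    have : b ∈ P := by
      rw [hPc, hden]
      refine ⟨a, ?_⟩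
      rw [← hab]
      have := im_ne hb0
      field_simp
    rw [h, Ideal.mem_bot] at this
    exact this
  -- `c P ⊆ R`, and it is not contained in `P` as `R` is integrally closed
  have hex : ∃ a ∈ P, ∃ u, u ∉ P ∧ algebraMap R (FractionRing R) u =
      algebraMap R (FractionRing R) a * c := by
    by_contra hno
    push Not at hno
    have hint : IsIntegral R c := by
      let N : Submodule R (FractionRing R) := Submodule.map (Algebra.linearMap R (FractionRing R)) P
      have hN : N.FG := Submodule.FG.map _ ((isNoetherianRing_iff_ideal_fg R).1 inferInstance P)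
      have hNne : N ≠ ⊥ := by
        intro h
        apply hPbot
        rw [eq_bot_iff]
        intro x hx
        have : algebraMap R (FractionRing R) x ∈ N := ⟨x, hx, rfl⟩
        rw [h, Submodule.mem_bot] at this
        rw [Ideal.mem_bot]
        exact im_inj (by rw [this, map_zero])
      refine isIntegral_of_smul_mem_submodule N hNne hN c ?_
      rintro _ ⟨a, ha, rfl⟩
      have ha' : a ∈ den c := hPc ▸ ha
      obtain ⟨x, hx⟩ := (hden c a).1 ha'
      have hxP : x ∈ P := by
        by_contra hx'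
        exact hno a ha x hx' hx
      refine ⟨x, hxP, ?_⟩
      rw [Algebra.linearMap_apply, Algebra.linearMap_apply, hx, smul_eq_mul, mul_comm]
    obtain ⟨x, hx⟩ := IsIntegrallyClosed.isIntegral_iff.1 hint
    apply hc1
    rw [hden]
    exact ⟨x, by rw [hx]; simp⟩
  obtain ⟨a, haP, u, huP, hau⟩ := hex
  have ha0 : a ≠ 0 := by
    rintro rfl
    apply huP
    have : u = 0 := im_inj (by rw [hau, map_zero, zero_mul])
    rw [this]
    exact P.zero_mem
  have hmin : P ∈ (Ideal.span {a}).minimalPrimes := by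
    refine ⟨⟨hPprime, ?_⟩, ?_⟩
    · rw [Ideal.span_singleton_le_iff_mem]
      exact haP
    · rintro Q ⟨hQ1, hQ2⟩ hQP b hb
      rw [Ideal.span_singleton_le_iff_mem] at hQ2
      have hb' : b ∈ den c := hPc ▸ hb
      obtain ⟨v, hv⟩ := (hden c b).1 hb'
      have h1 : u * b = a * v := by
        apply im_inj
        rw [map_mul, map_mul, hau, hv]
        ring
      have h2 : u * b ∈ Q := by
        rw [h1]
        exact Ideal.mul_mem_right _ _ hQ2
      exact (hQ1.mem_or_mem h2).resolve_left (fun h => huP (hQP h))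
  have hht : P.height = 1 := by
    apply le_antisymm
    · exact Ideal.height_le_one_of_isPrincipal_of_mem_minimalPrimes _ P hmin
    · rw [Order.one_le_iff_ne_zero]
      intro h0
      have hbot : (⊥ : Ideal R) < P := bot_lt_iff_ne_bot.2 hPbot
      have := Ideal.height_add_one_le_of_lt_of_isPrime hbot
      rw [h0] at this
      simp at this
  obtain ⟨s, hs, b, _, h1⟩ := hf ⟨P, hPprime, hht⟩ 1 (by simp)
  apply hs
  apply hPf
  rw [hden]
  exact ⟨b, by rw [← h1]; simp⟩

end

end Pool.Agent.H215R3.FS
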