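import Pool.Agent.H215R3.FS.Digits
import Pool.Agent.H215R3.FS.Div2

set_option autoImplicit false

namespace Pool.Agent.H215R3.FS

open IsLocalRing

section

variable {R : Type} [CommRing R] [IsDomain R] [IsNoetherianRing R] [IsIntegrallyClosed R]

omit [IsNoetherianRing R] [IsIntegrallyClosed R] in
lemma isDivOf_ord {N : PrimeDivisor R →₀ ℤ} {g : FractionRing R} (h : IsDivOf N g)
    (P : PrimeDivisor R) {t : R} (ht : IsUnif P.1 t) : HasOrd P.1 t g (N P) := by
  have := P.2.1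
  obtain ⟨m, hm⟩ := hasOrd_exists ht h.1
  have h1 := (ordGE_iff ht hm _).1 (h.2 P).1
  have h2 : ¬ (N P + 1 ≤ m) := fun h' => (h.2 P).2 ((ordGE_iff ht hm _).2 h')
  have : N P = m := by omega
  rw [this]
  exact hm

lemma one_mem_sections {D : PrimeDivisor R →₀ ℤ} (hD : 0 ≤ D) :
    (1 : FractionRing R) ∈ sections D := by
  intro P
  have := P.2.1
  obtain ⟨t, ht⟩ := unif P
  rw [ordGE_iff ht hasOrd_one]
  have : (0 : ℤ) ≤ D P := hD P
  omega

/-- Step (F): from the multiplier property to membership in `g₀ R`. -/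
lemma step_F {K D : PrimeDivisor R →₀ ℤ} {q : ℕ} {N : PrimeDivisor R →₀ ℤ}
    (hN : ∀ P, N P = (q - 1 : ℤ) * K P + D P) {g0 : FractionRing R} (hg0 : IsDivOf N g0)
    {g : FractionRing R}
    (hg : ∀ h ∈ sections K, ∀ f ∈ sections D, h ^ q * g * f ∈ sections K) :
    ∃ c : R, g = g0 * algebraMap R (FractionRing R) c := by
  by_cases hgz : g = 0
  · exact ⟨0, by simp [hgz]⟩
  have h1 : ∀ P : PrimeDivisor R, OrdGE P.1 (g / g0) 0 := by
    intro P
    have := P.2.1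
    obtain ⟨t, ht⟩ := unif P
    obtain ⟨h, hh, hh0, hho⟩ := exists_section K P ht
    obtain ⟨f, hf, hf0, hfo⟩ := exists_section D P ht
    obtain ⟨m, hm⟩ := hasOrd_exists ht hgz
    have hx := hg h hh f hf P
    rw [ordGE_iff ht (hasOrd_mul ht (hasOrd_mul ht (hasOrd_pow ht hho q) hm) hfo)] at hx
    have hd : g / g0 ≠ 0 := div_ne_zero hgz hg0.1
    obtain ⟨m', hm'⟩ := hasOrd_exists ht hd
    rw [ordGE_iff ht hm']
    have h2 := hasOrd_mul ht hm' (isDivOf_ord hg0 P ht)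
    rw [div_mul_cancel₀ _ hg0.1] at h2
    have h3 := hasOrd_unique ht h2 hm
    rw [hN P] at h3
    have h4 : ((q : ℤ) - 1) * K P = q * K P - K P := by ring
    have h5 : (q : ℤ) * - K P = - (q * K P) := by ring
    rw [h5] at hx
    rw [h4] at h3
    omega
  obtain ⟨c, hc⟩ := mem_of_ordGE _ h1
  refine ⟨c, ?_⟩
  rw [hc, mul_div_cancel₀ _ hg0.1]

/-- Step (F'): the multiplier property of `g₀`. -/
lemma step_F' {K D : PrimeDivisor R →₀ ℤ} (hD : 0 ≤ D) {q : ℕ} {N : PrimeDivisor R →₀ ℤ}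
    (hN : ∀ P, N P = (q - 1 : ℤ) * K P + D P) {g0 : FractionRing R} (hg0 : IsDivOf N g0) :
    ∀ h ∈ sections K, h ^ q * g0 ∈ sections K := by
  intro h hh P
  have := P.2.1
  obtain ⟨t, ht⟩ := unif P
  by_cases hz : h = 0
  · subst hz
    rcases Nat.eq_zero_or_pos q with hq | hq
    · subst hq
      rw [pow_zero, one_mul, ordGE_iff ht (isDivOf_ord hg0 P ht), hN P]
      have : (0 : ℤ) ≤ D P := hD P
      push_cast
      linarith
    · rw [zero_pow hq.ne', zero_mul]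
      exact ordGE_zero _ _
  · obtain ⟨m, hm⟩ := hasOrd_exists ht hz
    rw [ordGE_iff ht (hasOrd_mul ht (hasOrd_pow ht hm q) (isDivOf_ord hg0 P ht)), hN P]
    have h1 : - K P ≤ m := (ordGE_iff ht hm _).1 (hh P)
    have : (0 : ℤ) ≤ D P := hD P
    nlinarith

lemma exists_ne_zero_section (K : PrimeDivisor R →₀ ℤ) : ∃ h ∈ sections K, h ≠ 0 := by
  by_cases hne : Nonempty (PrimeDivisor R)
  · obtain ⟨P⟩ := hne
    obtain ⟨t, ht⟩ := unif P
    obtain ⟨h, hh, hh0, _⟩ := exists_section K P ht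
    exact ⟨h, hh, hh0⟩
  · exact ⟨1, fun P => absurd ⟨P⟩ hne, one_ne_zero⟩

end

end Pool.Agent.H215R3.FS
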