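import Pool.Agent.H215R3.FS.Dual

set_option autoImplicit false

namespace Pool.Agent.H215R3.FS

open IsLocalRing

section

variable {p : ℕ} [hp : Fact p.Prime] {d : ℕ} (e : ℕ)
variable {R : Type} [CommRing R] [IsDomain R] [IsNoetherianRing R] [IsIntegrallyClosed R]
  [CharP R p] [Algebra (PS p d) R]
variable {K D : PrimeDivisor R →₀ ℤ}
  (Θ : sections K ≃+ (R →ₗ[PS p d] PS p d))
  (hΘ : ∀ (r : R) (h : sections K) (s : R), Θ (r • h) s = Θ h (r * s))

omit [IsDomain R] [IsNoetherianRing R] [IsIntegrallyClosed R] [CharP R p] in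
lemma lin_mul (ψ : R →ₗ[PS p d] PS p d) (a : PS p d) (s : R) :
    ψ (algebraMap (PS p d) R a * s) = a * ψ s := by
  rw [← Algebra.smul_def, map_smul, smul_eq_mul]

omit [IsNoetherianRing R] [IsIntegrallyClosed R] [CharP R p] in
/-- uniqueness -/
lemma uniq {k k' : sections K} (h : ∀ s, Tr p e (Θ k s) = Tr p e (Θ k' s)) : k = k' := by
  apply Θ.injective
  ext1 s
  have : Θ k s - Θ k' s = 0 := by
    apply Tr_unique p e
    intro a
    have h1 := h (algebraMap (PS p d) R a * s)
    rw [lin_mul, lin_mul] at h1
    rw [sub_mul, map_sub, mul_comm, mul_comm (Θ k' s), h1, sub_self]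
  exact sub_eq_zero.1 this

include hΘ in
omit [IsNoetherianRing R] [IsIntegrallyClosed R] [CharP R p] in
lemma exists_k (φ : sections D →+ R)
    (hφ : ∀ (r : R) (f : sections D), φ (r ^ p ^ e • f) = r * φ f)
    (h : sections K) (f : sections D) :
    ∃ k : sections K, ∀ s : R, Tr p e (Θ k s) = Θ (φ (s • f) • h) 1 := by
  classical
  -- the functional attached to `f`
  have hχ : ∀ f : sections D, ∃ c : PS p d, ∀ a : PS p d,
      Θ (φ (algebraMap (PS p d) R a • f) • h) 1 = Tr p e (c * a) := by
    intro f
    let χ : PS p d →+ PS p d :=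
      { toFun := fun a => Θ (φ (algebraMap (PS p d) R a • f) • h) 1
        map_zero' := by simp
        map_add' := by
          intro a b
          rw [map_add, add_smul, map_add, add_smul, map_add, LinearMap.add_apply] }
    obtain ⟨c, hc⟩ := Tr_exists p e χ (by
      intro a b
      change Θ (φ (algebraMap (PS p d) R (a ^ p ^ e * b) • f) • h) 1 =
        a * Θ (φ (algebraMap (PS p d) R b • f) • h) 1
      rw [map_mul, map_pow, mul_smul, hφ, mul_smul, hΘ, lin_mul])
    exact ⟨c, hc⟩
  choose σ hσ using hχ
  have hσu : ∀ (f : sections D) (c : PS p d),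
      (∀ a : PS p d, Θ (φ (algebraMap (PS p d) R a • f) • h) 1 = Tr p e (c * a)) → c = σ f := by
    intro f c hc
    rw [← sub_eq_zero]
    apply Tr_unique p e
    intro a
    rw [sub_mul, map_sub, ← hc, ← hσ, sub_self]
  have hadd : ∀ f g, σ (f + g) = σ f + σ g := by
    intro f g
    symm
    apply hσu
    intro a
    rw [smul_add, map_add, add_smul, map_add, LinearMap.add_apply, hσ, hσ, add_mul, map_add]
  have hsm : ∀ (b : PS p d) (f : sections D), σ (algebraMap (PS p d) R b • f) = b * σ f := by
    intro b f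
    symm
    apply hσu
    intro a
    rw [← mul_smul, ← map_mul, hσ]
    congr 1
    ring
  let ψ : R →ₗ[PS p d] PS p d :=
    { toFun := fun s => σ (s • f)
      map_add' := by
        intro s t
        rw [add_smul, hadd]
      map_smul' := by
        intro a s
        rw [Algebra.smul_def, mul_smul, hsm, RingHom.id_apply, smul_eq_mul] }
  refine ⟨Θ.symm ψ, fun s => ?_⟩
  rw [AddEquiv.apply_symm_apply]
  change Tr p e (σ (s • f)) = _
  have := hσ (s • f) 1
  rw [(algebraMap (PS p d) R).map_one, one_smul, mul_one] at this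
  rw [this]

include hΘ in
omit [CharP R p] in
/-- Step 5. -/
lemma step5 (hD : 0 ≤ D) (φ : sections D →+ R)
    (hφ : ∀ (r : R) (f : sections D), φ (r ^ p ^ e • f) = r * φ f) :
    ∃ g : FractionRing R,
      (∀ h ∈ sections K, ∀ f ∈ sections D, h ^ p ^ e * g * f ∈ sections K) ∧
      (∀ (h : sections K) (s : R) (x : sections K),
        (x : FractionRing R) = (h : FractionRing R) ^ p ^ e * g *
          algebraMap R (FractionRing R) s →
        Θ (φ (s • ⟨1, one_mem_sections hD⟩) • h) 1 = Tr p e (Θ x 1)) := by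
  classical
  choose k hk using exists_k e Θ hΘ φ hφ
  have hq0 : p ^ e ≠ 0 := (q_pos p e).ne'
  set one : sections D := ⟨1, one_mem_sections hD⟩ with hone
  have hkf : ∀ h (r : R) f, k h (r • f) = r • k h f := by
    intro h r f
    apply uniq e Θ
    intro s
    rw [hΘ r (k h f) s, hk, hk, smul_smul, mul_comm]
  have hkh : ∀ (r : R) h f, k (r • h) f = r ^ p ^ e • k h f := by
    intro r h f
    apply uniq e Θ
    intro s
    rw [hΘ (r ^ p ^ e) (k h f) s, hk, hk, mul_smul, hφ, smul_smul, mul_comm]
  -- claim 1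
  have claim1 : ∀ h (f : sections D), (k h f : FractionRing R) = f * (k h one : FractionRing R) := by
    intro h f
    obtain ⟨a, b, hb, hab⟩ := IsFractionRing.div_surjective (A := R) (f : FractionRing R)
    have hb0 := im_ne (nonZeroDivisors.ne_zero hb)
    have h1 : b • f = a • one := by
      apply Subtype.ext
      rw [Submodule.coe_smul, Submodule.coe_smul, ← hab, Algebra.smul_def, Algebra.smul_def, hone]
      field_simp
    have h2 : b • k h f = a • k h one := by rw [← hkf, h1, hkf]
    have h3 := congrArg Subtype.val h2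
    rw [Submodule.coe_smul, Submodule.coe_smul, Algebra.smul_def, Algebra.smul_def] at h3
    rw [← hab]
    field_simp
    linear_combination h3
  obtain ⟨h0, hh0, hh00⟩ := exists_ne_zero_section K
  let g : FractionRing R := (k ⟨h0, hh0⟩ one : FractionRing R) / h0 ^ p ^ e
  have claim2 : ∀ h : sections K, (k h one : FractionRing R) = (h : FractionRing R) ^ p ^ e * g := by
    intro h
    obtain ⟨a, b, hb, hab⟩ := IsFractionRing.div_surjective (A := R) ((h : FractionRing R) / h0)
    have hb0 := im_ne (nonZeroDivisors.ne_zero hb)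
    have hha : (h : FractionRing R) = algebraMap R _ a / algebraMap R _ b * h0 := by
      rw [hab]
      field_simp
    have h1 : b • h = a • (⟨h0, hh0⟩ : sections K) := by
      apply Subtype.ext
      rw [Submodule.coe_smul, Submodule.coe_smul, hha, Algebra.smul_def, Algebra.smul_def]
      field_simp
    have h2 : b ^ p ^ e • k h one = a ^ p ^ e • k ⟨h0, hh0⟩ one := by rw [← hkh, h1, hkh]
    have h3 := congrArg Subtype.val h2
    rw [Submodule.coe_smul, Submodule.coe_smul, Algebra.smul_def, Algebra.smul_def, map_pow,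
      map_pow] at h3
    rw [hha, mul_pow, div_pow]
    have : (k ⟨h0, hh0⟩ one : FractionRing R) = h0 ^ p ^ e * g := by
      simp only [g]
      field_simp
    rw [this] at h3
    field_simp
    linear_combination h3
  refine ⟨g, ?_, ?_⟩
  · intro h hh f hf
    have h1 := claim1 ⟨h, hh⟩ ⟨f, hf⟩
    rw [claim2] at h1
    have h2 := (k ⟨h, hh⟩ ⟨f, hf⟩).2
    rw [h1] at h2
    convert h2 using 1
    ring
  · intro h s x hx
    have h1 : x = k h (s • one) := by
      apply Subtype.ext
      rw [hx, hkf, Submodule.coe_smul, claim2, Algebra.smul_def]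
      ring
    rw [h1, hk, one_smul]

include hΘ in
/-- Step 6. -/
lemma step6 [Module.Finite (PS p d) R] (g0 : FractionRing R)
    (hg0 : ∀ h ∈ sections K, h ^ p ^ e * g0 ∈ sections K) :
    ∃ φ0 : R →+ R, (∀ r s, φ0 (r ^ p ^ e * s) = r * φ0 s) ∧
      ∀ (r : R) (h : sections K) (s : R),
        Θ (φ0 r • h) s = Tr p e (Θ ⟨(h : FractionRing R) ^ p ^ e * g0, hg0 h h.2⟩
          (s ^ p ^ e * r)) := by
  classical
  have hq0 : p ^ e ≠ 0 := (q_pos p e).ne'
  have : CharP (FractionRing R) p := charP_of_injective_algebraMap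
    (IsFractionRing.injective R (FractionRing R)) p
  have : ExpChar (FractionRing R) p := ExpChar.prime hp.out
  have : ExpChar R p := ExpChar.prime hp.out
  let y : sections K → sections K := fun h => ⟨(h : FractionRing R) ^ p ^ e * g0, hg0 h h.2⟩
  have hyadd : ∀ h h', y (h + h') = y h + y h' := by
    intro h h'
    apply Subtype.ext
    change ((h + h' : sections K) : FractionRing R) ^ p ^ e * g0 =
      (h : FractionRing R) ^ p ^ e * g0 + (h' : FractionRing R) ^ p ^ e * g0
    rw [Submodule.coe_add, add_pow_expChar_pow, add_mul]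
  have hysm : ∀ (c : R) h, y (c • h) = c ^ p ^ e • y h := by
    intro c h
    apply Subtype.ext
    change ((c • h : sections K) : FractionRing R) ^ p ^ e * g0 =
      ((c ^ p ^ e • y h : sections K) : FractionRing R)
    rw [Submodule.coe_smul, Submodule.coe_smul, Algebra.smul_def, Algebra.smul_def, mul_pow,
      map_pow]
    change _ = _ * ((h : FractionRing R) ^ p ^ e * g0)
    ring
  -- the maps `κ_r`
  let lin : R → sections K → (R →ₗ[PS p d] PS p d) := fun r h =>
    { toFun := fun s => Tr p e (Θ (y h) (s ^ p ^ e * r))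
      map_add' := by
        intro s t
        rw [add_pow_expChar_pow, add_mul, map_add, map_add]
      map_smul' := by
        intro a s
        rw [Algebra.smul_def, mul_pow, ← map_pow, mul_assoc, lin_mul, Tr_pow_mul,
          RingHom.id_apply, smul_eq_mul] }
  let κ : R → sections K → sections K := fun r h => Θ.symm (lin r h)
  have hκ : ∀ r h s, Θ (κ r h) s = Tr p e (Θ (y h) (s ^ p ^ e * r)) := by
    intro r h s
    change Θ (Θ.symm (lin r h)) s = _
    rw [AddEquiv.apply_symm_apply]
    rfl
  have hκsm : ∀ r (c : R) h, κ r (c • h) = c • κ r h := by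
    intro r c h
    apply Θ.injective
    ext1 s
    rw [hκ, hΘ, hκ, hysm, hΘ]
    congr 2
    ring
  obtain ⟨h0, hh0, hh00⟩ := exists_ne_zero_section K
  -- each `κ_r` is multiplication by an element of the fraction field
  have hmul : ∀ r (h : sections K), (κ r h : FractionRing R) =
      ((κ r ⟨h0, hh0⟩ : FractionRing R) / h0) * h := by
    intro r h
    obtain ⟨a, b, hb, hab⟩ := IsFractionRing.div_surjective (A := R) ((h : FractionRing R) / h0)
    have hb0 := im_ne (nonZeroDivisors.ne_zero hb)
    have hha : (h : FractionRing R) = algebraMap R _ a / algebraMap R _ b * h0 := by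
      rw [hab]
      field_simp
    have h1 : b • h = a • (⟨h0, hh0⟩ : sections K) := by
      apply Subtype.ext
      rw [Submodule.coe_smul, Submodule.coe_smul, hha, Algebra.smul_def, Algebra.smul_def]
      field_simp
    have h2 : b • κ r h = a • κ r ⟨h0, hh0⟩ := by rw [← hκsm, h1, hκsm]
    have h3 := congrArg Subtype.val h2
    rw [Submodule.coe_smul, Submodule.coe_smul, Algebra.smul_def, Algebra.smul_def] at h3
    rw [hha]
    field_simp
    linear_combination h3
  -- finiteness of the canonical module
  have hfg : (sections K).FG := by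
    have h1 : IsNoetherian (PS p d) (R →ₗ[PS p d] PS p d) := inferInstance
    obtain ⟨S, hS⟩ := h1.noetherian ⊤
    refine ⟨S.image (fun ψ => (Θ.symm ψ : FractionRing R)), le_antisymm ?_ ?_⟩
    · rw [Submodule.span_le]
      intro x hx
      rw [Finset.coe_image] at hx
      obtain ⟨ψ, _, rfl⟩ := hx
      exact (Θ.symm ψ).2
    · intro x hx
      have key : ∀ ψ ∈ Submodule.span (PS p d) (S : Set (R →ₗ[PS p d] PS p d)),
          (Θ.symm ψ : FractionRing R) ∈ Submodule.span R
            ((S.image (fun ψ => (Θ.symm ψ : FractionRing R)) : Finset (FractionRing R)) :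
              Set (FractionRing R)) := by
        intro ψ hψ
        induction hψ using Submodule.span_induction with
        | mem ψ hψ =>
          apply Submodule.subset_span
          rw [Finset.coe_image]
          exact ⟨ψ, hψ, rfl⟩
        | zero => simp
        | add ψ ψ' _ _ h1 h2 =>
          rw [map_add, Submodule.coe_add]
          exact Submodule.add_mem _ h1 h2
        | smul a ψ _ h1 =>
          have : Θ.symm (a • ψ) = algebraMap (PS p d) R a • Θ.symm ψ := by
            apply Θ.injective
            ext1 s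
            rw [AddEquiv.apply_symm_apply, hΘ, AddEquiv.apply_symm_apply, lin_mul,
              LinearMap.smul_apply, smul_eq_mul]
          rw [this, Submodule.coe_smul]
          exact Submodule.smul_mem _ _ h1
      have h2 := key (Θ ⟨x, hx⟩) (by rw [hS]; trivial)
      rw [AddEquiv.symm_apply_apply] at h2
      exact h2
  have hin : ∀ r, ∃ c : R, algebraMap R (FractionRing R) c =
      (κ r ⟨h0, hh0⟩ : FractionRing R) / h0 := by
    intro r
    have hint : IsIntegral R ((κ r ⟨h0, hh0⟩ : FractionRing R) / h0) := by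
      refine isIntegral_of_smul_mem_submodule (sections K) ?_ hfg _ ?_
      · intro h
        rw [h, Submodule.mem_bot] at hh0
        exact hh00 hh0
      · intro h hh
        rw [smul_eq_mul]
        have := hmul r ⟨h, hh⟩
        simp only at this
        rw [← this]
        exact (κ r ⟨h, hh⟩).2
    exact IsIntegrallyClosed.isIntegral_iff.1 hint
  choose c hc using hin
  have hcκ : ∀ r (h : sections K), c r • h = κ r h := by
    intro r h
    apply Subtype.ext
    rw [Submodule.coe_smul, hmul, Algebra.smul_def, hc]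
  have hcu : ∀ a b : R, a • (⟨h0, hh0⟩ : sections K) = b • ⟨h0, hh0⟩ → a = b := by
    intro a b hab
    have h3 := congrArg Subtype.val hab
    rw [Submodule.coe_smul, Submodule.coe_smul, Algebra.smul_def, Algebra.smul_def] at h3
    exact im_inj (mul_right_cancel₀ hh00 h3)
  have hc0 : c 0 = 0 := by
    apply hcu
    rw [hcκ, zero_smul]
    apply Θ.injective
    ext1 s
    rw [hκ, mul_zero, map_zero, map_zero, map_zero, LinearMap.zero_apply]
  have hcadd : ∀ a b, c (a + b) = c a + c b := by
    intro a b
    apply hcu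
    rw [add_smul, hcκ, hcκ, hcκ]
    apply Θ.injective
    ext1 s
    rw [hκ, map_add, LinearMap.add_apply, hκ, hκ, mul_add, map_add, map_add]
  refine ⟨{ toFun := c, map_zero' := hc0, map_add' := hcadd }, ?_, ?_⟩
  · intro r s
    change c (r ^ p ^ e * s) = r * c s
    apply hcu
    rw [hcκ, mul_smul, hcκ]
    apply Θ.injective
    ext1 t
    rw [hκ, hΘ, hκ]
    congr 2
    ring
  · intro r h s
    change Θ (c r • h) s = _
    rw [hcκ, hκ]

include hΘ in
/-- Step 7: the module of `q^{-1}`-linear maps `R(D) → R` is generated by one map. -/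
lemma step7 [Module.Finite (PS p d) R] (hD : 0 ≤ D) {N : PrimeDivisor R →₀ ℤ}
    (hN : ∀ P, N P = (((p ^ e : ℕ) : ℤ) - 1) * K P + D P) {g0 : FractionRing R}
    (hg0 : IsDivOf N g0) :
    ∃ φ0 : R →+ R, (∀ r s, φ0 (r ^ p ^ e * s) = r * φ0 s) ∧
      ∀ φ : sections D →+ R, (∀ (r : R) (f : sections D), φ (r ^ p ^ e • f) = r * φ f) →
        ∃ c : R, ∀ r : R, φ (r • ⟨1, one_mem_sections hD⟩) = φ0 (c * r) := by
  classical
  obtain ⟨φ0, h1, h2⟩ := step6 e Θ hΘ g0 (step_F' hD hN hg0)
  refine ⟨φ0, h1, fun φ hφ => ?_⟩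
  obtain ⟨g, hg1, hg2⟩ := step5 e Θ hΘ hD φ hφ
  obtain ⟨c, hc⟩ := step_F hN hg0 hg1
  refine ⟨c, fun r => ?_⟩
  obtain ⟨h0, hh0, hh00⟩ := exists_ne_zero_section K
  have hcu : ∀ a b : R, a • (⟨h0, hh0⟩ : sections K) = b • ⟨h0, hh0⟩ → a = b := by
    intro a b hab
    have h3 := congrArg Subtype.val hab
    rw [Submodule.coe_smul, Submodule.coe_smul, Algebra.smul_def, Algebra.smul_def] at h3
    exact im_inj (mul_right_cancel₀ hh00 h3)
  apply hcu
  apply Θ.injective
  ext1 s
  rw [h2]
  set y : sections K := ⟨((⟨h0, hh0⟩ : sections K) : FractionRing R) ^ p ^ e * g0,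
    step_F' hD hN hg0 _ (⟨h0, hh0⟩ : sections K).2⟩ with hy
  have e1 := hg2 (s • ⟨h0, hh0⟩) r ((s ^ p ^ e * (c * r)) • y) (by
    rw [Submodule.coe_smul, Submodule.coe_smul, hc, Algebra.smul_def, Algebra.smul_def, map_mul,
      map_mul, map_pow, mul_pow]
    change _ * (h0 ^ p ^ e * g0) = _ * h0 ^ p ^ e * _ * _
    ring)
  rw [hΘ (s ^ p ^ e * (c * r)) y 1, mul_one] at e1
  rw [← e1, smul_smul, mul_comm, hΘ, hΘ]
  congr 1
  ring

end

end Pool.Agent.H215R3.FS
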