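import Pool.Agent.H215R3.FS.Dim
import Pool.Agent.H215R3.FS.Bound

set_option autoImplicit false

namespace Pool.Agent.H215R3.FS

open MvPowerSeries

lemma finite_of_gen {A B : Type} [CommRing A] [CommRing B] (f : A →+* B) (U : Set B)
    (hU : U.Finite) (h : ∀ N : AddSubgroup B, (∀ u ∈ U, u ∈ N) →
      (∀ a : A, ∀ x ∈ N, f a * x ∈ N) → ∀ x, x ∈ N) : f.Finite := by
  let _ := f.toAlgebra
  refine ⟨⟨hU.toFinset, ?_⟩⟩
  rw [eq_top_iff]
  intro x _
  refine h (Submodule.span A (hU.toFinset : Set B)).toAddSubgroup ?_ ?_ x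
  · intro u hu
    exact Submodule.subset_span (by simpa using hu)
  · intro a y hy
    have := Submodule.smul_mem _ a hy
    rwa [Algebra.smul_def] at this

section

variable {p : ℕ} [hp : Fact p.Prime]

/-- the generating set -/
def genU (p : ℕ) [Fact p.Prime] : Set (DR p) :=
  {x | ∃ (u : Fin 5 →₀ ℕ) (hu : wt u = 0), (∀ i, u i < p * 3) ∧ x = Mon u hu}

lemma genU_finite : (genU p).Finite := by
  classical
  let F : (Fin 5 → Fin (p * 3)) → DR p := fun v =>
    if h : wt (Finsupp.equivFunOnFinite.symm (fun i => (v i : ℕ))) = 0 then Mon _ h else 0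
  refine (Set.finite_range F).subset ?_
  rintro x ⟨u, hu, h1, rfl⟩
  refine ⟨fun i => ⟨u i, h1 i⟩, ?_⟩
  have h2 : Finsupp.equivFunOnFinite.symm (fun i => u i) = u := by
    ext i
    rfl
  simp only [F]
  rw [dif_pos (by rw [h2]; exact hu)]
  apply Subtype.ext
  simp only [Mon, h2]

lemma claim (N : AddSubgroup (DR p)) (hN : ∀ u ∈ genU p, u ∈ N)
    (hN' : ∀ a : DR p, ∀ x ∈ N, frobenius (DR p) p a * x ∈ N) (n : ℕ) :
    ∀ j : ℤ, j.natAbs = n → n ≤ 2 → ∀ a : Fin 5 →₀ ℕ, (∀ i, a i < p * (3 - n)) →
      ∀ g : PS p 5, HasWt j g → wt a + p * j = 0 → ∀ h : HasWt 0 (g ^ p * monomial a 1),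
        (⟨g ^ p * monomial a 1, h⟩ : DR p) ∈ N := by
  induction n with
  | zero =>
    intro j hj _ a ha g hg hw h
    have hj0 : j = 0 := Int.natAbs_eq_zero.1 hj
    subst hj0
    have h1 : wt a = 0 := by simpa using hw
    have h2 := hN' ⟨g, hg⟩ (Mon a h1) (hN _ ⟨a, h1, ha, rfl⟩)
    exact h2
  | succ n ih =>
    intro j hj hn a ha g hg hw h
    have hstep : ∀ (i : Fin 5) (j' : ℤ) (g' : PS p 5), HasWt j' g' → j'.natAbs = n →
        wt a + p * ep i + p * j' = 0 → ∃ h' : HasWt 0 ((X i * g') ^ p * monomial a 1),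
          (⟨(X i * g') ^ p * monomial a 1, h'⟩ : DR p) ∈ N := by
      intro i j' g' hg' hj' hw'
      have e1 : (X i * g') ^ p * monomial a 1 = g' ^ p * monomial (a + Finsupp.single i p) 1 := by
        rw [mul_pow, X_pow_eq]
        have : (monomial (a + Finsupp.single i p) (1 : ZMod p) : PS p 5) =
            monomial a 1 * monomial (Finsupp.single i p) 1 := by
          rw [monomial_mul_monomial, mul_one]
        rw [this]
        ring
      have e2 : wt (a + Finsupp.single i p) + p * j' = 0 := by
        rw [wt_add, wt_single]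
        exact hw'
      have e3 : HasWt (wt (a + Finsupp.single i p) + p * j')
          (g' ^ p * monomial (a + Finsupp.single i p) 1) := by
        have h5 : ∀ k : ℕ, HasWt (k * j') (g' ^ k) := by
          intro k
          induction k with
          | zero => simpa using hasWt_one
          | succ k ihk =>
            have := hasWt_mul ihk hg'
            rw [pow_succ]
            have e : ((k + 1 : ℕ) : ℤ) * j' = k * j' + j' := by push_cast; ring
            rw [e]
            exact this
        rw [add_comm]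
        exact hasWt_mul (h5 p) (hasWt_monomial _ _)
      rw [e2] at e3
      have h6 : HasWt 0 ((X i * g') ^ p * monomial a 1) := by
        rw [e1]
        exact e3
      refine ⟨h6, ?_⟩
      have h7 := ih j' hj' (by omega) (a + Finsupp.single i p) (by
        intro k
        rw [Finsupp.add_apply]
        have h8 := ha k
        have h9 : (Finsupp.single i p : Fin 5 →₀ ℕ) k ≤ p := by
          rw [Finsupp.single_apply]
          split_ifs
          · exact le_rfl
          · exact Nat.zero_le _
        have h10 : p * (3 - n) = p * (3 - (n + 1)) + p := by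
          have : 3 - n = 3 - (n + 1) + 1 := by omega
          rw [this]
          ring
        omega) g' hg' e2 e3
      have h8 : (⟨(X i * g') ^ p * monomial a 1, h6⟩ : DR p) =
          ⟨g' ^ p * monomial (a + Finsupp.single i p) 1, e3⟩ := Subtype.ext e1
      rw [h8]
      exact h7
    rcases lt_trichotomy j 0 with hj1 | hj1 | hj1
    · obtain ⟨g2, g3, g4, w2, w3, w4, hg'⟩ := split_neg j hj1 g hg
      have hn' : (j + 1).natAbs = n := by omega
      have ww : ∀ i : Fin 5, ep i = -1 → wt a + p * ep i + p * (j + 1) = 0 := by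
        intro i hi
        rw [hi]
        linear_combination hw
      obtain ⟨k2, m2⟩ := hstep 2 (j + 1) g2 w2 hn' (ww 2 (by decide))
      obtain ⟨k3, m3⟩ := hstep 3 (j + 1) g3 w3 hn' (ww 3 (by decide))
      obtain ⟨k4, m4⟩ := hstep 4 (j + 1) g4 w4 hn' (ww 4 (by decide))
      have h9 : (⟨g ^ p * monomial a 1, h⟩ : DR p) =
          ⟨(X 2 * g2) ^ p * monomial a 1, k2⟩ + ⟨(X 3 * g3) ^ p * monomial a 1, k3⟩ +
            ⟨(X 4 * g4) ^ p * monomial a 1, k4⟩ := by
        apply Subtype.ext
        change g ^ p * monomial a 1 = (X 2 * g2) ^ p * monomial a 1 +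
          (X 3 * g3) ^ p * monomial a 1 + (X 4 * g4) ^ p * monomial a 1
        rw [hg', add_pow_char, add_pow_char]
        ring
      rw [h9]
      exact N.add_mem (N.add_mem m2 m3) m4
    · exfalso
      rw [hj1] at hj
      simp at hj
    · obtain ⟨g0, g1, w0, w1, hg'⟩ := split_pos j hj1 g hg
      have hn' : (j - 1).natAbs = n := by omega
      have ww : ∀ i : Fin 5, ep i = 1 → wt a + p * ep i + p * (j - 1) = 0 := by
        intro i hi
        rw [hi]
        linear_combination hw
      obtain ⟨k0, m0⟩ := hstep 0 (j - 1) g0 w0 hn' (ww 0 (by decide))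
      obtain ⟨k1, m1⟩ := hstep 1 (j - 1) g1 w1 hn' (ww 1 (by decide))
      have h9 : (⟨g ^ p * monomial a 1, h⟩ : DR p) =
          ⟨(X 0 * g0) ^ p * monomial a 1, k0⟩ + ⟨(X 1 * g1) ^ p * monomial a 1, k1⟩ := by
        apply Subtype.ext
        change g ^ p * monomial a 1 = (X 0 * g0) ^ p * monomial a 1 +
          (X 1 * g1) ^ p * monomial a 1
        rw [hg', add_pow_char]
        ring
      rw [h9]
      exact N.add_mem m0 m1

theorem frobenius_finite : (frobenius (DR p) p).Finite := by
  classical
  refine finite_of_gen (frobenius (DR p) p) (genU p) genU_finite ?_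
  intro N hN hN' x
  have h1 := digit_sum p 1 x.1
  have h2 : x = ∑ v : Fin 5 → Fin (p ^ 1),
      rho ((dig p 1 (bx p 1 v) x.1) ^ p ^ 1 * monomial (bx p 1 v) 1) := by
    have h3 : ∀ (s : Finset (Fin 5 → Fin (p ^ 1))) (F : (Fin 5 → Fin (p ^ 1)) → PS p 5),
        rho (∑ v ∈ s, F v) = ∑ v ∈ s, rho (F v) := by
      intro s F
      induction s using Finset.induction_on with
      | empty => simp [rho_zero]
      | insert a s ha ih => rw [Finset.sum_insert ha, Finset.sum_insert ha, rho_add, ih]
    exact (rho_coe x).symm.trans ((congrArg rho h1).trans (h3 _ _))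
  rw [h2]
  apply N.sum_mem
  intro v _
  rw [pow_one]
  by_cases hz : dig p 1 (bx p 1 v) x.1 = 0
  · rw [hz, zero_pow hp.out.ne_zero, zero_mul, rho_zero]
    exact N.zero_mem
  · obtain ⟨w, hw⟩ : ∃ w, coeff w (dig p 1 (bx p 1 v) x.1) ≠ 0 := by
      by_contra hc
      push Not at hc
      apply hz
      ext w
      rw [hc, coeff_zero]
    rw [coeff_dig] at hw
    have hw1 := x.2 _ hw
    rw [wt_add, wt_smul, pow_one] at hw1
    have hg : HasWt (wt w) (dig p 1 (bx p 1 v) x.1) := by
      intro w' hw'
      rw [coeff_dig] at hw'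
      have hw2 := x.2 _ hw'
      rw [wt_add, wt_smul, pow_one] at hw2
      have h4 : (p : ℤ) * wt w' = p * wt w := by linarith
      exact mul_left_cancel₀ (by exact_mod_cast hp.out.ne_zero) h4
    have hb : ∀ i, bx p 1 v i < p := by
      intro i
      have := bx_lt p 1 v i
      rwa [pow_one] at this
    have hbd : (wt w).natAbs ≤ 2 := by
      have b0 := hb 0
      have b1 := hb 1
      have b2 := hb 2
      have b3 := hb 3
      have b4 := hb 4
      have h5 : -(3 * (p : ℤ)) < wt (bx p 1 v) ∧ wt (bx p 1 v) < 3 * p := by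
        unfold wt
        omega
      have h6 : (p : ℤ) * wt w < p * 3 := by linarith [h5.1]
      have h7 : (p : ℤ) * (-3) < p * wt w := by linarith [h5.2]
      have h8 := lt_of_mul_lt_mul_left h6 (by positivity)
      have h9 := lt_of_mul_lt_mul_left h7 (by positivity)
      omega
    have hwt : HasWt 0 ((dig p 1 (bx p 1 v) x.1) ^ p * monomial (bx p 1 v) 1) := by
      have h5 : ∀ k : ℕ, HasWt (k * wt w) ((dig p 1 (bx p 1 v) x.1) ^ k) := by
        intro k
        induction k with
        | zero => simpa using hasWt_one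
        | succ k ihk =>
          have := hasWt_mul ihk hg
          rw [pow_succ]
          have e : ((k + 1 : ℕ) : ℤ) * wt w = k * wt w + wt w := by push_cast; ring
          rw [e]
          exact this
      have := hasWt_mul (h5 p) (hasWt_monomial (p := p) (bx p 1 v) 1)
      rwa [hw1] at this
    have h10 : rho ((dig p 1 (bx p 1 v) x.1) ^ p * monomial (bx p 1 v) 1) = ⟨_, hwt⟩ :=
      Subtype.ext (comp0_of_hasWt hwt)
    rw [h10]
    refine claim N hN hN' (wt w).natAbs (wt w) rfl hbd (bx p 1 v) ?_ _ hg ?_ hwt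
    · intro i
      have h11 := hb i
      have h12 : p * 1 ≤ p * (3 - (wt w).natAbs) := Nat.mul_le_mul_left _ (by omega)
      omega
    · linarith

end

end Pool.Agent.H215R3.FS
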