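import Pool.Agent.H215R3.FS.Bound2
import Pool.Agent.H215R3.FS.Defs

set_option autoImplicit false

namespace Pool.Agent.H215R3.FS

open MvPowerSeries

section

variable {p : ℕ} [hp : Fact p.Prime]

/-- exponent vectors of weight `0` with all entries `< q` -/
noncomputable def Bx (p e : ℕ) : Finset (Fin 5 → Fin (p ^ e)) := by
  classical
  exact Finset.univ.filter (fun v => wt (bx p e v) = 0)

omit hp in
lemma mem_Bx (e : ℕ) (v : Fin 5 → Fin (p ^ e)) : v ∈ Bx p e ↔ wt (bx p e v) = 0 := by
  classical
  simp [Bx]

noncomputable local instance instAlg' : Algebra (ZMod p) (DR p) := ZMod.algebra (DR p) p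

/-- coefficients at the exponents of `Bx` -/
noncomputable def Ev (p e : ℕ) [Fact p.Prime] : DR p →+ (Bx p e → ZMod p) where
  toFun r := fun v => coeff (bx p e v.1) r.1
  map_zero' := by
    ext v
    exact map_zero _
  map_add' := by
    intro a b
    ext v
    exact map_add (coeff (bx p e v.1)) a.1 b.1

lemma phi_of_Ev (e : ℕ) (φ : DR p →+ DR p) (hφ : IsPLin e φ) (r : DR p) (hr : Ev p e r = 0) :
    constantCoeff (φ r).1 = 0 := by
  apply phi_mem e φ hφ Finset.univ
  intro u hu
  by_contra hcon
  push Not at hcon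
  apply hu
  let v : Fin 5 → Fin (p ^ e) := fun i => ⟨u i, hcon i (Finset.mem_univ _)⟩
  have hv : bx p e v = u := by
    ext i
    rfl
  have h1 : v ∈ Bx p e := by
    rw [mem_Bx, hv]
    exact r.2 u hu
  have h2 := congrFun hr ⟨v, h1⟩
  change coeff (bx p e v) r.1 = 0 at h2
  rwa [hv] at h2

lemma smul_def' (e : ℕ) (r : DR p) (x : FrobPush p e (DR p)) :
    r • x = (show FrobPush p e (DR p) from (r ^ p ^ e * (show DR p from x) : DR p)) := rfl

lemma rank_le (e n : ℕ) (i : (Fin n → DR p) →ₗ[DR p] FrobPush p e (DR p))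
    (π : FrobPush p e (DR p) →ₗ[DR p] (Fin n → DR p)) (h : π ∘ₗ i = LinearMap.id) :
    n ≤ (Bx p e).card := by
  classical
  let x : Fin n → DR p := fun j => i (Pi.single j 1)
  let φ : Fin n → (DR p →+ DR p) := fun j =>
    { toFun := fun y => π (show FrobPush p e (DR p) from y) j
      map_zero' := by
        have : π (0 : FrobPush p e (DR p)) = 0 := map_zero _
        exact congrFun this j
      map_add' := by
        intro a b
        have : π ((show FrobPush p e (DR p) from a) + (show FrobPush p e (DR p) from b)) =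
          π (show FrobPush p e (DR p) from a) + π (show FrobPush p e (DR p) from b) :=
          map_add _ _ _
        exact congrFun this j }
  have hφ : ∀ j, IsPLin e (φ j) := by
    intro j r s
    have : π (r • (show FrobPush p e (DR p) from s)) = r • π (show FrobPush p e (DR p) from s) :=
      map_smul _ _ _
    exact congrFun this j
  have hφx : ∀ j k, φ j (x k) = if j = k then 1 else 0 := by
    intro j k
    have h1 := LinearMap.congr_fun h (Pi.single k 1)
    have h2 := congrFun h1 j
    rw [LinearMap.comp_apply, LinearMap.id_apply, Pi.single_apply] at h2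
    exact h2
  let E : DR p →ₗ[ZMod p] (Bx p e → ZMod p) := (Ev p e).toZModLinearMap p
  let lam : Fin n → (DR p →ₗ[ZMod p] ZMod p) := fun j =>
    (((constantCoeff (σ := Fin 5) (R := ZMod p)).comp (detRing p).subtype).toAddMonoidHom.comp
      (φ j)).toZModLinearMap p
  have hlam : ∀ j k, lam j (x k) = if j = k then 1 else 0 := by
    intro j k
    change constantCoeff (φ j (x k)).1 = _
    rw [hφx]
    split_ifs
    · exact map_one _
    · exact map_zero _
  have hli : LinearIndependent (ZMod p) (fun j => E (x j)) := by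
    rw [Fintype.linearIndependent_iff]
    intro c hc j
    have h1 : E (∑ k, c k • x k) = 0 := by
      rw [map_sum]
      rw [← hc]
      apply Finset.sum_congr rfl
      intro k _
      rw [map_smul]
    have h2 : lam j (∑ k, c k • x k) = 0 := phi_of_Ev e (φ j) (hφ j) _ h1
    rw [map_sum] at h2
    have h3 : ∀ k, lam j (c k • x k) = if j = k then c k else 0 := by
      intro k
      rw [map_smul, hlam, smul_eq_mul]
      split_ifs
      · rw [mul_one]
      · rw [mul_zero]
    rw [Finset.sum_congr rfl (fun k _ => h3 k)] at h2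
    simpa using h2
  have := hli.fintype_card_le_finrank
  rw [Module.finrank_fintype_fun_eq_card, Fintype.card_coe, Fintype.card_fin] at this
  exact this

lemma dig_bx_monomial (e : ℕ) (v w : Fin 5 → Fin (p ^ e)) :
    dig p e (bx p e v) (monomial (bx p e w) (1 : ZMod p)) = if v = w then 1 else 0 := by
  classical
  ext u
  rw [coeff_dig, coeff_monomial]
  by_cases h : v = w
  · subst h
    rw [if_pos rfl, coeff_one]
    by_cases hu : u = 0
    · rw [hu, smul_zero, zero_add, if_pos rfl, if_pos rfl]
    · rw [if_neg, if_neg hu]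
      intro h1
      rw [add_eq_right] at h1
      rcases smul_eq_zero.1 h1 with h3 | h3
      · exact absurd h3 (q_pos p e).ne'
      · exact hu h3
  · rw [if_neg h, coeff_zero, if_neg]
    intro h1
    apply h
    funext i
    have h2 := DFunLike.congr_fun h1 i
    simp only [Finsupp.add_apply, Finsupp.smul_apply, smul_eq_mul, bx_apply] at h2
    have h3 := (v i).2
    have h4 := (w i).2
    have h5 : u i = 0 := by
      by_contra hc
      have : p ^ e * 1 ≤ p ^ e * u i := Nat.mul_le_mul_left _ (Nat.one_le_iff_ne_zero.2 hc)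
      omega
    rw [h5] at h2
    apply Fin.ext
    omega

lemma hasWt_dig (e : ℕ) (v : Fin 5 → Fin (p ^ e)) (hv : wt (bx p e v) = 0) (f : PS p 5)
    (hf : HasWt 0 f) : HasWt 0 (dig p e (bx p e v) f) := by
  intro w hw
  rw [coeff_dig] at hw
  have h1 := hf _ hw
  rw [wt_add, wt_smul, hv, add_zero] at h1
  rcases mul_eq_zero.1 h1 with h | h
  · exact absurd (Int.natCast_eq_zero.1 h) (q_pos p e).ne'
  · exact h

lemma rank_ge (e : ℕ) : ∃ (i : (Fin (Bx p e).card → DR p) →ₗ[DR p] FrobPush p e (DR p))
    (π : FrobPush p e (DR p) →ₗ[DR p] (Fin (Bx p e).card → DR p)), π ∘ₗ i = LinearMap.id := by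
  classical
  let ε : Fin (Bx p e).card ≃ Bx p e := (Bx p e).equivFin.symm
  let M : Fin (Bx p e).card → FrobPush p e (DR p) := fun j =>
    (Mon (bx p e (ε j).1) ((mem_Bx e _).1 (ε j).2) : DR p)
  let i : (Fin (Bx p e).card → DR p) →ₗ[DR p] FrobPush p e (DR p) := Fintype.linearCombination (DR p) M
  let π : FrobPush p e (DR p) →ₗ[DR p] (Fin (Bx p e).card → DR p) :=
    { toFun := fun x j => ⟨dig p e (bx p e (ε j).1) (show DR p from x).1,
        hasWt_dig e _ ((mem_Bx e _).1 (ε j).2) _ (show DR p from x).2⟩
      map_add' := by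
        intro x y
        funext j
        apply Subtype.ext
        exact map_add (dig p e (bx p e (ε j).1)) _ _
      map_smul' := by
        intro r x
        funext j
        apply Subtype.ext
        exact dig_pow_mul p e _ (bx_lt p e _) r.1 (show DR p from x).1 }
  refine ⟨i, π, ?_⟩
  apply LinearMap.pi_ext'
  intro j
  ext1
  rw [LinearMap.comp_apply, LinearMap.comp_apply, LinearMap.comp_apply, LinearMap.id_apply,
    LinearMap.single_apply]
  have h1 : i (Pi.single j 1) = M j := by
    simp only [i]
    rw [Fintype.linearCombination_apply_single, one_smul]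
  rw [h1]
  funext k
  apply Subtype.ext
  change dig p e (bx p e (ε k).1) (monomial (bx p e (ε j).1) 1) = ((Pi.single j (1 : DR p) : Fin (Bx p e).card → DR p) k).1
  rw [dig_bx_monomial, Pi.single_apply]
  by_cases h : k = j
  · subst h
    rw [if_pos rfl, if_pos rfl]
    rfl
  · rw [if_neg, if_neg h]
    · rfl
    · intro h2
      exact h (ε.injective (Subtype.ext h2))

theorem freeRank_eq (e : ℕ) : freeRank (DR p) (FrobPush p e (DR p)) = (Bx p e).card := by
  have h : IsGreatest {n : ℕ | ∃ (i : (Fin n → DR p) →ₗ[DR p] FrobPush p e (DR p))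
      (π : FrobPush p e (DR p) →ₗ[DR p] (Fin n → DR p)), π ∘ₗ i = LinearMap.id}
      (Bx p e).card := by
    refine ⟨rank_ge e, ?_⟩
    rintro n ⟨i, π, h⟩
    exact rank_le e n i π h
  exact h.csSup_eq

end

end Pool.Agent.H215R3.FS
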