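import Pool.Agent.H215R3.FS.Bound2
import Pool.Agent.H215R3.FS.Dual2

set_option autoImplicit false

namespace Pool.Agent.H215R3.FS

open MvPowerSeries Filter Topology IsLocalRing

section

variable {R : Type} [CommRing R] [IsDomain R] [IsNoetherianRing R] [IsIntegrallyClosed R]

lemma isDivOf_pow {N : PrimeDivisor R →₀ ℤ} {g : FractionRing R} (h : IsDivOf N g) (m : ℕ) :
    IsDivOf (m • N) (g ^ m) := by
  refine ⟨pow_ne_zero _ h.1, fun P => ?_⟩
  have := P.2.1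
  obtain ⟨t, ht⟩ := unif P
  have h1 := hasOrd_pow ht (isDivOf_ord h P ht) m
  rw [ordGE_iff ht h1, ordGE_iff ht h1]
  simp only [Finsupp.smul_apply, nsmul_eq_mul]
  exact ⟨le_rfl, by omega⟩

end

section

variable {p : ℕ} [hp : Fact p.Prime]

/-- the bound for `ℓ(R / I_e^Δ)` when `(p^e - 1)(K + Δ)` is principal -/
lemma length_split_le (K : PrimeDivisor (DR p) →₀ ℤ) (hK : IsCanonicalDivisor p 4 K)
    (Δ : PrimeDivisor (DR p) →₀ ℚ) (hΔ : 0 ≤ Δ) (e : ℕ)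
    (N : PrimeDivisor (DR p) →₀ ℤ) (hN : ∀ P, N P = (((p ^ e : ℕ) : ℤ) - 1) * K P + roundUp p e Δ P)
    (g0 : FractionRing (DR p)) (hg0 : IsDivOf N g0) :
    Module.length (DR p) (DR p ⧸ splittingIdeal p e Δ hΔ) ≤ ((2 * cnt (p ^ e) : ℕ) : ℕ∞) := by
  obtain ⟨j, hj, hjf, Θ, hΘ⟩ := hK
  letI := j.toAlgebra
  have : Module.Finite (MvPowerSeries (Fin 4) (ZMod p)) (DR p) := hjf
  obtain ⟨φ0, h1, h2⟩ := step7 (p := p) (d := 4) e Θ hΘ
    (roundUp_nonneg hp.out.one_le e hΔ) hN hg0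
  have hle : J0 φ0 ≤ splittingIdeal p e Δ hΔ := by
    intro r hr φ hφ
    obtain ⟨c, hc⟩ := h2 φ hφ
    have h3 := hc r
    have h4 : r • (⟨1, one_mem_sections (roundUp_nonneg hp.out.one_le e hΔ)⟩ :
        sections (roundUp p e Δ)) = inclSections (roundUp_nonneg hp.out.one_le e hΔ) r := by
      apply Subtype.ext
      rw [Submodule.coe_smul, Algebra.smul_def, mul_one]
      rfl
    rw [h4] at h3
    rw [h3, mem_max, mul_comm]
    exact hr c
  refine le_trans ?_ (length_J0_le e φ0 h1)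
  exact Module.length_le_of_surjective (Submodule.factor hle)
    (Submodule.factor_surjective hle)

lemma tendsto_cnt (e0 : ℕ) (he0 : 0 < e0) :
    Tendsto (fun j : ℕ => ((2 * cnt (p ^ (e0 * j)) : ℕ) : ℝ) / (p : ℝ) ^ (e0 * j * 4)) atTop
      (𝓝 (1 / 4)) := by
  have hp2 : (1 : ℝ) < p := by exact_mod_cast hp.out.one_lt
  have hq : Tendsto (fun j : ℕ => ((p : ℝ) ^ (e0 * j))⁻¹) atTop (𝓝 0) := by
    apply Tendsto.inv_tendsto_atTop
    have h1 : Tendsto (fun j : ℕ => e0 * j) atTop atTop :=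
      Filter.tendsto_id.const_mul_atTop' he0
    exact (tendsto_pow_atTop_atTop_of_one_lt hp2).comp h1
  have hlim : Tendsto (fun j : ℕ => (1 + ((p : ℝ) ^ (e0 * j))⁻¹) *
      (1 + 2 * ((p : ℝ) ^ (e0 * j))⁻¹) * (3 + ((p : ℝ) ^ (e0 * j))⁻¹) / 12) atTop
      (𝓝 ((1 + 0) * (1 + 2 * 0) * (3 + 0) / 12)) := by
    exact (((hq.const_add 1).mul ((hq.const_mul 2).const_add 1)).mul (hq.const_add 3)).div_const 12
  have h14 : ((1 : ℝ) + 0) * (1 + 2 * 0) * (3 + 0) / 12 = 1 / 4 := by norm_num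
  rw [h14] at hlim
  refine hlim.congr fun j => ?_
  have hq0 : (p : ℝ) ^ (e0 * j) ≠ 0 := by positivity
  have h2 := cnt_formula (p ^ (e0 * j))
  have h3 : (24 : ℝ) * (cnt (p ^ (e0 * j)) : ℝ) = (p : ℝ) ^ (e0 * j) * ((p : ℝ) ^ (e0 * j) + 1) *
      ((p : ℝ) ^ (e0 * j) + 2) * (3 * (p : ℝ) ^ (e0 * j) + 1) := by exact_mod_cast h2
  have h4 : (p : ℝ) ^ (e0 * j * 4) = ((p : ℝ) ^ (e0 * j)) ^ 4 := by rw [pow_mul]
  rw [h4]
  push_cast
  field_simp
  linear_combination -h3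

theorem pair_bound (K : PrimeDivisor (DR p) →₀ ℤ) (hK : IsCanonicalDivisor p 4 K)
    (Δ : PrimeDivisor (DR p) →₀ ℚ) (hΔ : 0 ≤ Δ)
    (hQ : IsQCartierPrimeTo p (K.mapRange (fun n : ℤ => (n : ℚ)) Int.cast_zero + Δ))
    (s : ℝ) (hs : HasFSignaturePair (DR p) p 4 Δ hΔ s) : s ≤ 1 / 4 := by
  obtain ⟨n, hn0, hpn, N0, hN0, g, hg⟩ := hQ
  have hcop : Nat.Coprime p n := (Nat.Prime.coprime_iff_not_dvd hp.out).2 hpn
  set e0 := Nat.totient n with he0
  have he0' : 0 < e0 := Nat.totient_pos.2 hn0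
  have hdiv : ∀ j : ℕ, ∃ m : ℕ, p ^ (e0 * j) = 1 + n * m := by
    intro j
    have h1 : p ^ e0 ≡ 1 [MOD n] := Nat.ModEq.pow_totient hcop
    have h2 : p ^ (e0 * j) ≡ 1 [MOD n] := by
      rw [pow_mul]
      simpa using h1.pow j
    have h3 : 1 ≤ p ^ (e0 * j) := Nat.one_le_pow _ _ hp.out.pos
    obtain ⟨m, hm⟩ := (Nat.modEq_iff_dvd' h3).1 h2.symm
    exact ⟨m, by omega⟩
  have hbound : ∀ j : ℕ, ((Module.length (DR p)
      (DR p ⧸ splittingIdeal p (e0 * j) Δ hΔ)).toNat : ℝ) / (p : ℝ) ^ (e0 * j * 4) ≤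
      ((2 * cnt (p ^ (e0 * j)) : ℕ) : ℝ) / (p : ℝ) ^ (e0 * j * 4) := by
    intro j
    obtain ⟨m, hm⟩ := hdiv j
    apply div_le_div_of_nonneg_right _ (by positivity)
    have h5 : Module.length (DR p) (DR p ⧸ splittingIdeal p (e0 * j) Δ hΔ) ≤
        ((2 * cnt (p ^ (e0 * j)) : ℕ) : ℕ∞) := by
      refine length_split_le K hK Δ hΔ (e0 * j) (m • N0) ?_ (g ^ m) (isDivOf_pow hg m)
      intro P
      have h6 := hN0 P
      rw [Finsupp.add_apply, Finsupp.mapRange_apply] at h6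
      have h7 : ((p : ℚ) ^ (e0 * j) - 1) * Δ P =
          (((m • N0) P - (((p ^ (e0 * j) : ℕ) : ℤ) - 1) * K P : ℤ) : ℚ) := by
        have h8 : ((p : ℚ) ^ (e0 * j)) = 1 + n * m := by exact_mod_cast hm
        rw [Finsupp.smul_apply, nsmul_eq_mul]
        push_cast
        rw [h8, h6]
        ring
      have h9 : roundUp p (e0 * j) Δ P =
          (m • N0) P - (((p ^ (e0 * j) : ℕ) : ℤ) - 1) * K P := by
        change ⌈((p : ℚ) ^ (e0 * j) - 1) * Δ P⌉ = _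
        rw [h7, Int.ceil_intCast]
      rw [h9]
      ring
    have h10 := ENat.toNat_le_toNat h5 (ENat.natCast_ne_top _)
    rw [ENat.toNat_natCast] at h10
    exact_mod_cast h10
  have hsub : Tendsto (fun j : ℕ => e0 * j) atTop atTop :=
    Filter.tendsto_id.const_mul_atTop' he0'
  have h1 := hs.comp hsub
  exact le_of_tendsto_of_tendsto' h1 (tendsto_cnt e0 he0') hbound

end

end Pool.Agent.H215R3.FS
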