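import Pool.Agent.H215R3.FS.Digits
import Pool.Agent.Helper819.DC.MVN1

set_option autoImplicit false

namespace Pool.Agent.H215R3.FS

open MvPowerSeries

/-- The weight of an exponent vector: the first two variables have weight `1`, the last three have
weight `-1`. -/
def wt (u : Fin 5 →₀ ℕ) : ℤ := (u 0 : ℤ) + u 1 - u 2 - u 3 - u 4

lemma wt_add (u v : Fin 5 →₀ ℕ) : wt (u + v) = wt u + wt v := by
  simp only [wt, Finsupp.add_apply]
  push_cast
  ring

lemma wt_smul (n : ℕ) (u : Fin 5 →₀ ℕ) : wt (n • u) = n * wt u := by
  simp only [wt, Finsupp.smul_apply, smul_eq_mul]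
  push_cast
  ring

/-- weight of a variable -/
def ep (i : Fin 5) : ℤ := if i.val < 2 then 1 else -1

lemma wt_single (i : Fin 5) (n : ℕ) : wt (Finsupp.single i n) = n * ep i := by
  fin_cases i <;> simp [wt, ep]

section

variable {p : ℕ} [hp : Fact p.Prime]

/-- `f` is homogeneous of weight `j`. -/
def HasWt (j : ℤ) (f : PS p 5) : Prop := ∀ u, coeff u f ≠ 0 → wt u = j

lemma hasWt_zero (j : ℤ) : HasWt j (0 : PS p 5) := by
  intro u hu
  exact absurd (coeff_zero u) hu

lemma hasWt_add {j : ℤ} {f g : PS p 5} (hf : HasWt j f) (hg : HasWt j g) : HasWt j (f + g) := by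
  intro u hu
  rw [map_add] at hu
  by_cases h : coeff u f = 0
  · rw [h, zero_add] at hu
    exact hg u hu
  · exact hf u h

lemma hasWt_neg {j : ℤ} {f : PS p 5} (hf : HasWt j f) : HasWt j (-f) := by
  intro u hu
  rw [map_neg, neg_ne_zero] at hu
  exact hf u hu

lemma hasWt_mul {i j : ℤ} {f g : PS p 5} (hf : HasWt i f) (hg : HasWt j g) :
    HasWt (i + j) (f * g) := by
  classical
  intro u hu
  rw [coeff_mul] at hu
  obtain ⟨x, hx, hx'⟩ := Finset.exists_ne_zero_of_sum_ne_zero hu
  rw [Finset.HasAntidiagonal.mem_antidiagonal] at hx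
  rw [← hx, wt_add, hf _ (left_ne_zero_of_mul hx'), hg _ (right_ne_zero_of_mul hx')]

lemma hasWt_one : HasWt 0 (1 : PS p 5) := by
  classical
  intro u hu
  rw [coeff_one] at hu
  split_ifs at hu with h
  · subst h
    simp [wt]
  · exact absurd rfl hu

lemma hasWt_monomial (u : Fin 5 →₀ ℕ) (a : ZMod p) : HasWt (wt u) (monomial u a) := by
  classical
  intro v hv
  rw [coeff_monomial] at hv
  split_ifs at hv with h
  · rw [h]
  · exact absurd rfl hv

lemma hasWt_X_pow (i : Fin 5) (n : ℕ) : HasWt (n * ep i) ((X i : PS p 5) ^ n) := by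
  rw [X_pow_eq, ← wt_single]
  exact hasWt_monomial _ _

lemma hasWt_X (i : Fin 5) : HasWt (ep i) (X i : PS p 5) := by
  have := hasWt_X_pow (p := p) i 1
  simpa using this

/-- restriction to a set of exponents -/
noncomputable def restr (A : Set (Fin 5 →₀ ℕ)) (f : PS p 5) : PS p 5 := by
  classical
  exact fun u => if u ∈ A then coeff u f else 0

lemma coeff_restr (A : Set (Fin 5 →₀ ℕ)) [DecidablePred (· ∈ A)] (f : PS p 5) (u : Fin 5 →₀ ℕ) :
    coeff u (restr A f) = if u ∈ A then coeff u f else 0 := by
  by_cases h : u ∈ A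
  · rw [if_pos h]
    exact if_pos h
  · rw [if_neg h]
    exact if_neg h

/-- the component of weight `0` -/
noncomputable def comp0 (f : PS p 5) : PS p 5 := restr {u | wt u = 0} f

lemma coeff_comp0 (f : PS p 5) (u : Fin 5 →₀ ℕ) :
    coeff u (comp0 f) = if wt u = 0 then coeff u f else 0 := by
  classical
  unfold comp0
  rw [coeff_restr]
  rfl

lemma hasWt_comp0 (f : PS p 5) : HasWt 0 (comp0 f) := by
  intro u hu
  rw [coeff_comp0] at hu
  split_ifs at hu with h
  · exact h
  · exact absurd rfl hu

lemma comp0_of_hasWt {f : PS p 5} (hf : HasWt 0 f) : comp0 f = f := by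
  ext u
  rw [coeff_comp0]
  split_ifs with h
  · rfl
  · by_contra hc
    exact h (hf u (Ne.symm hc))

lemma comp0_add (f g : PS p 5) : comp0 (f + g) = comp0 f + comp0 g := by
  ext u
  rw [map_add, coeff_comp0, coeff_comp0, coeff_comp0, map_add]
  split_ifs
  · rfl
  · rw [add_zero]

lemma comp0_mul {f : PS p 5} (hf : HasWt 0 f) (g : PS p 5) : comp0 (f * g) = f * comp0 g := by
  classical
  ext u
  rw [coeff_comp0, coeff_mul, coeff_mul]
  split_ifs with h
  · apply Finset.sum_congr rfl
    intro x hx
    rw [Finset.HasAntidiagonal.mem_antidiagonal] at hx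
    by_cases h0 : coeff x.1 f = 0
    · rw [h0, zero_mul, zero_mul]
    · rw [coeff_comp0, if_pos]
      have h1 := hf _ h0
      rw [← hx, wt_add, h1, zero_add] at h
      exact h
  · symm
    apply Finset.sum_eq_zero
    intro x hx
    rw [Finset.HasAntidiagonal.mem_antidiagonal] at hx
    by_cases h0 : coeff x.1 f = 0
    · rw [h0, zero_mul]
    · rw [coeff_comp0, if_neg, mul_zero]
      have h1 := hf _ h0
      intro h2
      apply h
      rw [← hx, wt_add, h1, h2, add_zero]

variable (p)

/-- The complete local ring of the generic `2 × 3` matrices of rank at most one: the power series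
in `x_i y_j` (`i = 1, 2`, `j = 1, 2, 3`), inside the power series in `x_1, x_2, y_1, y_2, y_3`
over the field with `p` elements. -/
def detRing : Subring (PS p 5) where
  carrier := {f | HasWt 0 f}
  mul_mem' := by
    intro f g hf hg
    have := hasWt_mul hf hg
    rwa [add_zero] at this
  one_mem' := hasWt_one
  add_mem' := fun hf hg => hasWt_add hf hg
  zero_mem' := hasWt_zero 0
  neg_mem' := fun hf => hasWt_neg hf

/-- The ring `R`, as a type. -/
abbrev DR : Type := detRing p

variable {p}

lemma mem_detRing (f : PS p 5) : f ∈ detRing p ↔ HasWt 0 f := Iff.rfl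

/-- the retraction `S → R` -/
noncomputable def rho (f : PS p 5) : DR p := ⟨comp0 f, hasWt_comp0 f⟩

lemma rho_mul (a : DR p) (f : PS p 5) : rho (a.1 * f) = a * rho f :=
  Subtype.ext (comp0_mul a.2 f)

lemma rho_add (f g : PS p 5) : rho (f + g) = rho f + rho g := Subtype.ext (comp0_add f g)

lemma rho_coe (a : DR p) : rho a.1 = a := Subtype.ext (comp0_of_hasWt a.2)

lemma rho_zero : rho (0 : PS p 5) = 0 := rho_coe 0

instance : Nontrivial (DR p) := inferInstance
instance : IsDomain (DR p) := by
  have : IsDomain (PS p 5) := NoZeroDivisors.to_isDomain _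
  infer_instance

lemma comap_map (I : Ideal (DR p)) : (I.map (detRing p).subtype).comap (detRing p).subtype = I := by
  apply le_antisymm
  · intro x hx
    have key : ∀ y ∈ I.map (detRing p).subtype, ∀ s : PS p 5, rho (s * y) ∈ I := by
      intro y hy
      unfold Ideal.map at hy
      induction hy using Submodule.span_induction with
      | mem y hy =>
        obtain ⟨a, ha, rfl⟩ := hy
        intro s
        have : s * (detRing p).subtype a = a.1 * s := mul_comm _ _
        rw [this, rho_mul]
        exact Ideal.mul_mem_right _ _ ha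
      | zero =>
        intro s
        rw [mul_zero, rho_zero]
        exact I.zero_mem
      | add y z _ _ h1 h2 =>
        intro s
        rw [mul_add, rho_add]
        exact Ideal.add_mem _ (h1 s) (h2 s)
      | smul a y _ h1 =>
        intro s
        rw [smul_eq_mul, ← mul_assoc]
        exact h1 _
    have := key _ hx 1
    rw [one_mul] at this
    have h2 : rho ((detRing p).subtype x) = x := rho_coe x
    rwa [h2] at this
  · exact Ideal.le_comap_map

instance : IsNoetherianRing (DR p) := by
  have h1 : WellFoundedGT (Ideal (PS p 5)) := (isNoetherian_iff').1 inferInstance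
  have h2 : WellFoundedGT (Ideal (DR p)) := by
    let F : Ideal (DR p) ↪o Ideal (PS p 5) := OrderEmbedding.ofMapLEIff
      (fun I => I.map (detRing p).subtype) (by
        intro I J
        constructor
        · intro h
          rw [← comap_map I, ← comap_map J]
          exact Ideal.comap_mono h
        · intro h
          exact Ideal.map_mono h)
    exact F.wellFoundedGT
  exact (isNoetherian_iff').2 h2

lemma isUnit_iff (f : DR p) : IsUnit f ↔ constantCoeff f.1 ≠ 0 := by
  constructor
  · intro h
    have := (h.map (detRing p).subtype).map (constantCoeff (σ := Fin 5) (R := ZMod p))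
    exact this.ne_zero
  · intro h
    have h1 : IsUnit f.1 := by
      rw [MvPowerSeries.isUnit_iff_constantCoeff]
      exact isUnit_iff_ne_zero.2 h
    obtain ⟨g, hg⟩ := h1.exists_right_inv
    refine IsUnit.of_mul_eq_one (rho g) ?_
    rw [← rho_mul, hg]
    exact rho_coe 1

instance : IsLocalRing (DR p) := by
  refine IsLocalRing.of_isUnit_or_isUnit_one_sub_self ?_
  intro f
  rw [isUnit_iff, isUnit_iff]
  by_cases h : constantCoeff f.1 = 0
  · right
    have : ((1 - f : DR p) : PS p 5) = 1 - f.1 := rfl
    rw [this, map_sub, h, map_one, sub_zero]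
    exact one_ne_zero
  · left
    exact h

lemma mem_max (f : DR p) : f ∈ IsLocalRing.maximalIdeal (DR p) ↔ constantCoeff f.1 = 0 := by
  rw [IsLocalRing.mem_maximalIdeal, mem_nonunits_iff, isUnit_iff, not_not]

instance : CharP (PS p 5) p := by
  refine charP_of_injective_ringHom (f := (C : ZMod p →+* PS p 5)) ?_ p
  exact C_injective

instance : CharP (DR p) p := by
  have : Function.Injective (detRing p).subtype := Subtype.val_injective
  refine ⟨fun x => ?_⟩
  rw [← CharP.cast_eq_zero_iff (PS p 5) p, ← map_natCast (detRing p).subtype,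
    map_eq_zero_iff _ this]

instance : IsIntegrallyClosed (DR p) := by
  have hdom : IsDomain (PS p 5) := NoZeroDivisors.to_isDomain _
  have hic : IsIntegrallyClosed (PS p 5) :=
    (Pool.Agent.Helper819.DC.MVN1.mv_integrallyClosed (m := 5) (K := ZMod p)).2
  rw [isIntegrallyClosed_iff (FractionRing (DR p))]
  intro x hx
  have hinj : Function.Injective
      ((algebraMap (PS p 5) (FractionRing (PS p 5))).comp (detRing p).subtype) := by
    rw [RingHom.coe_comp]
    exact (IsFractionRing.injective _ _).comp Subtype.val_injective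
  let F : FractionRing (DR p) →+* FractionRing (PS p 5) := IsFractionRing.lift hinj
  have hF : ∀ a : DR p, F (algebraMap (DR p) (FractionRing (DR p)) a) =
      algebraMap (PS p 5) (FractionRing (PS p 5)) a.1 := fun a =>
    IsFractionRing.lift_algebraMap hinj a
  have h1 : IsIntegral (PS p 5) (F x) := by
    refine hx.map_of_comp_eq (detRing p).subtype F ?_
    ext a
    exact (hF a).symm
  obtain ⟨s, hs⟩ := (isIntegrallyClosed_iff (FractionRing (PS p 5))).1 hic h1
  obtain ⟨a, b, hb, hab⟩ := IsFractionRing.div_surjective (A := DR p) x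
  have hb0 : b ≠ 0 := nonZeroDivisors.ne_zero hb
  have hb0' : algebraMap (DR p) (FractionRing (DR p)) b ≠ 0 := by
    intro h
    exact hb0 (IsFractionRing.injective (DR p) (FractionRing (DR p)) (by rw [h, map_zero]))
  have h2 : a.1 = b.1 * s := by
    apply IsFractionRing.injective (PS p 5) (FractionRing (PS p 5))
    rw [map_mul, hs, ← hF, ← hF, ← map_mul, ← hab]
    congr 1
    field_simp
  refine ⟨rho s, ?_⟩
  have h3 : a = b * rho s := by
    rw [← rho_mul, ← h2, rho_coe]
  rw [← hab, h3, map_mul]
  field_simp

end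

end Pool.Agent.H215R3.FS
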