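import Pool.Agent.H215R3.FS.Ring

set_option autoImplicit false

namespace Pool.Agent.H215R3.FS

open MvPowerSeries

section

variable {p : ℕ} [hp : Fact p.Prime]

/-- shift of exponents -/
noncomputable def shift (i : Fin 5) (n : ℕ) (f : PS p 5) : PS p 5 :=
  fun w => coeff (w + Finsupp.single i n) f

lemma coeff_shift (i : Fin 5) (n : ℕ) (f : PS p 5) (w : Fin 5 →₀ ℕ) :
    coeff w (shift i n f) = coeff (w + Finsupp.single i n) f := rfl

lemma hasWt_shift {j : ℤ} {f : PS p 5} (hf : HasWt j f) (i : Fin 5) (n : ℕ) :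
    HasWt (j - n * ep i) (shift i n f) := by
  intro w hw
  rw [coeff_shift] at hw
  have := hf _ hw
  rw [wt_add, wt_single] at this
  linarith

lemma hasWt_restr {j : ℤ} {f : PS p 5} (hf : HasWt j f) (A : Set (Fin 5 →₀ ℕ)) :
    HasWt j (restr A f) := by
  classical
  intro w hw
  rw [coeff_restr] at hw
  split_ifs at hw with h
  · exact hf w hw
  · exact absurd rfl hw

lemma split (f : PS p 5) (i : Fin 5) (n : ℕ) :
    f = X i ^ n * shift i n f + restr {u | u i < n} f := by
  classical
  ext u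
  rw [map_add, X_pow_eq, coeff_monomial_mul, coeff_restr, one_mul, coeff_shift]
  simp only [Finsupp.single_le_iff, Set.mem_setOf_eq]
  by_cases h : n ≤ u i
  · rw [if_pos h, if_neg (not_lt.2 h), add_zero]
    congr 2
    ext j
    by_cases hj : i = j
    · subst hj
      simp
      omega
    · simp [Finsupp.single_apply, hj]
  · rw [if_neg h, if_pos (not_le.1 h), zero_add]

/-- `φ` is `p^{-e}`-linear. -/
def IsPLin (e : ℕ) (φ : DR p →+ DR p) : Prop := ∀ r s, φ (r ^ p ^ e * s) = r * φ s

def partner : Fin 5 → Fin 5 := ![1, 0, 3, 2, 2]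
def oth : Fin 5 → Fin 5 := ![2, 2, 0, 0, 0]

lemma partner_ne (i : Fin 5) : partner i ≠ i := by
  fin_cases i <;> decide
lemma ep_partner (i : Fin 5) : ep (partner i) = ep i := by
  fin_cases i <;> decide
lemma ep_oth (i : Fin 5) : ep (oth i) = - ep i := by
  fin_cases i <;> decide

lemma wt_aux (e : ℕ) (i j : Fin 5) (hij : ep j = ep i) (f : PS p 5)
    (hf : HasWt (-((p ^ e : ℕ) : ℤ) * ep i) f) : HasWt 0 (X j ^ p ^ e * f) := by
  have := hasWt_mul (hasWt_X_pow j (p ^ e)) hf
  rw [hij] at this
  have h0 : ((p ^ e : ℕ) : ℤ) * ep i + -((p ^ e : ℕ) : ℤ) * ep i = 0 := by ring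
  rwa [h0] at this

/-- The key vanishing: a `p^{-e}`-linear map sends `R ∩ X_i^q S` into the maximal ideal. -/
lemma star (e : ℕ) (φ : DR p →+ DR p) (hφ : IsPLin e φ) (i : Fin 5) (f : PS p 5)
    (hf : HasWt (-((p ^ e : ℕ) : ℤ) * ep i) f) :
    constantCoeff (φ ⟨X i ^ p ^ e * f, wt_aux e i i rfl f hf⟩).1 = 0 := by
  classical
  set a : DR p := ⟨X i ^ p ^ e * f, wt_aux e i i rfl f hf⟩
  set a' : DR p := ⟨X (partner i) ^ p ^ e * f, wt_aux e i _ (ep_partner i) f hf⟩
  have h1 : HasWt 0 (X (partner i) * X (oth i) : PS p 5) := by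
    have := hasWt_mul (hasWt_X (p := p) (partner i)) (hasWt_X (oth i))
    rwa [ep_partner, ep_oth, add_neg_cancel] at this
  have h2 : HasWt 0 (X i * X (oth i) : PS p 5) := by
    have := hasWt_mul (hasWt_X (p := p) i) (hasWt_X (oth i))
    rwa [ep_oth, add_neg_cancel] at this
  set u : DR p := ⟨_, h1⟩
  set v : DR p := ⟨_, h2⟩
  have h3 : u ^ p ^ e * a = v ^ p ^ e * a' := by
    apply Subtype.ext
    change (X (partner i) * X (oth i)) ^ p ^ e * (X i ^ p ^ e * f) =
      (X i * X (oth i)) ^ p ^ e * (X (partner i) ^ p ^ e * f)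
    ring
  have h4 : u * φ a = v * φ a' := by rw [← hφ, h3, hφ]
  have h5 : X (partner i) * (φ a).1 = X i * (φ a').1 := by
    have h6 := congrArg Subtype.val h4
    change X (partner i) * X (oth i) * (φ a).1 = X i * X (oth i) * (φ a').1 at h6
    have hX : (X (oth i) : PS p 5) ≠ 0 := by
      intro h
      have := congrArg (coeff (Finsupp.single (oth i) 1)) h
      rw [coeff_index_single_self_X, coeff_zero] at this
      exact one_ne_zero this
    have : IsDomain (PS p 5) := NoZeroDivisors.to_isDomain _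
    apply mul_left_cancel₀ hX
    linear_combination h6
  have h7 := congrArg (coeff (Finsupp.single (partner i) 1)) h5
  rw [X_def, X_def, coeff_monomial_mul, coeff_monomial_mul, if_pos le_rfl, if_neg, tsub_self,
    one_mul] at h7
  · exact h7
  · intro h
    have := h i
    rw [Finsupp.single_eq_same, Finsupp.single_apply, if_neg (partner_ne i)] at this
    exact absurd this (by norm_num)

/-- If every monomial of `f ∈ R` has an exponent `≥ q`, then `φ(f)` lies in the maximal ideal. -/
lemma phi_mem (e : ℕ) (φ : DR p →+ DR p) (hφ : IsPLin e φ) (T : Finset (Fin 5)) :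
    ∀ f : DR p, (∀ u, coeff u f.1 ≠ 0 → ∃ i ∈ T, p ^ e ≤ u i) → constantCoeff (φ f).1 = 0 := by
  classical
  induction T using Finset.induction_on with
  | empty =>
    intro f hf
    have : f = 0 := by
      apply Subtype.ext
      ext u
      by_contra h
      obtain ⟨i, hi, _⟩ := hf u h
      simp at hi
    rw [this, map_zero]
    exact map_zero _
  | insert i T _ ih =>
    intro f hf
    have h1 := split f.1 i (p ^ e)
    have h2 : HasWt (-((p ^ e : ℕ) : ℤ) * ep i) (shift i (p ^ e) f.1) := by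
      have := hasWt_shift f.2 i (p ^ e)
      have h0 : (0 : ℤ) - ((p ^ e : ℕ) : ℤ) * ep i = -((p ^ e : ℕ) : ℤ) * ep i := by ring
      rwa [h0] at this
    have h3 : f = ⟨X i ^ p ^ e * shift i (p ^ e) f.1, wt_aux e i i rfl _ h2⟩ +
        ⟨restr {u | u i < p ^ e} f.1, hasWt_restr f.2 _⟩ := Subtype.ext h1
    rw [h3, map_add]
    change constantCoeff ((φ _).1 + (φ _).1) = 0
    rw [map_add, star e φ hφ i _ h2, zero_add]
    apply ih
    intro u hu
    change coeff u (restr {u | u i < p ^ e} f.1) ≠ 0 at hu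
    rw [coeff_restr] at hu
    split_ifs at hu with h
    · obtain ⟨j, hj, hj'⟩ := hf u hu
      rw [Finset.mem_insert] at hj
      rcases hj with rfl | hj
      · exact absurd h (not_lt.2 hj')
      · exact ⟨j, hj, hj'⟩
    · exact absurd rfl hu

end

end Pool.Agent.H215R3.FS
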