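import Pool.Agent.H215R3.FS.Defs

/-!
# The statement: F-finite normal local domains, canonical divisors, F-signatures of pairs
-/

set_option autoImplicit false

namespace Pool.Agent.H215R3.FS

open IsLocalRing Filter Topology

/-- `Hom_A(R, A)`, the group of the `A`-linear maps `R → A`, for a ring homomorphism `j : A → R`. -/
def dualGroup {A R : Type} [CommRing A] [CommRing R] (j : A →+* R) : AddSubgroup (R →+ A) where
  carrier := {ψ | ∀ a r, ψ (j a * r) = a * ψ r}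
  zero_mem' := fun a _ => (mul_zero a).symm
  add_mem' := by
    intro ψ χ h1 h2 a r
    rw [AddMonoidHom.add_apply, AddMonoidHom.add_apply, h1, h2, mul_add]
  neg_mem' := by
    intro ψ h1 a r
    rw [AddMonoidHom.neg_apply, AddMonoidHom.neg_apply, h1, mul_neg]

/-- An additive bijection `R(K) → Hom_A(R, A)` is `R`-linear, where `(r ψ)(s) = ψ(r s)`. -/
def IsRLinear {A R : Type} [CommRing A] [CommRing R] [IsDomain R] (j : A →+* R)
    (K : PrimeDivisor R →₀ ℤ) (Θ : sections K ≃+ dualGroup j) : Prop :=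
  ∀ (r : R) (h : sections K) (s : R), (Θ (r • h)).1 s = (Θ h).1 (r * s)

/-- `K` is a canonical divisor of the `d`-dimensional complete local domain `R` with residue field
`𝔽_p`: `R` is a finite extension of a power series ring `A = 𝔽_p[[t_1, …, t_d]]` such that
`R(K)` is isomorphic, as an `R`-module, to the canonical module `ω_R = Hom_A(R, A)`. -/
def IsCanonical {R : Type} [CommRing R] [IsDomain R] (p d : ℕ) (K : PrimeDivisor R →₀ ℤ) : Prop :=
  ∃ j : MvPowerSeries (Fin d) (ZMod p) →+* R, Function.Injective j ∧ j.Finite ∧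
    ∃ Θ : sections K ≃+ dualGroup j, IsRLinear j K Θ

/-- The integral divisor `K` as a `ℚ`-divisor. -/
noncomputable def toQ {R : Type} [CommRing R] (K : PrimeDivisor R →₀ ℤ) : PrimeDivisor R →₀ ℚ :=
  K.mapRange (fun n : ℤ => (n : ℚ)) Int.cast_zero

/-- `K_X + Δ` is `ℚ`-Cartier of index prime to `p`. -/
def IsLogQGorenstein {R : Type} [CommRing R] [IsDomain R] (p d : ℕ)
    (Δ : PrimeDivisor R →₀ ℚ) : Prop :=
  ∃ K : PrimeDivisor R →₀ ℤ, IsCanonical p d K ∧ IsQCartierPrimeTo p (toQ K + Δ)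

/-- `φ : R(D) → R` is `p^{-e}`-linear, i.e. an `R`-linear map `F^e_* R(D) → R`. -/
def IsFrobLinear {R : Type} [CommRing R] [IsDomain R] (p e : ℕ) (D : PrimeDivisor R →₀ ℤ)
    (φ : sections D →+ R) : Prop :=
  ∀ (s : R) (f : sections D), φ (s ^ p ^ e • f) = s * φ f

/-- `r` is in `I_e^Δ`: every `R`-linear map `φ : F^e_* R(⌈(p^e - 1)Δ⌉) → R` sends `r` into the
maximal ideal. -/
def InSplitting {R : Type} [CommRing R] [IsDomain R] [IsLocalRing R] (p e : ℕ)
    [hp : Fact p.Prime] (Δ : PrimeDivisor R →₀ ℚ) (hΔ : 0 ≤ Δ) (r : R) : Prop :=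
  ∀ φ : sections (roundUp p e Δ) →+ R, IsFrobLinear p e (roundUp p e Δ) φ →
    φ (inclSections (roundUp_nonneg hp.out.one_le e hΔ) r) ∈ maximalIdeal R

lemma inSplitting_iff {R : Type} [CommRing R] [IsDomain R] [IsLocalRing R] (p e : ℕ)
    [hp : Fact p.Prime] (Δ : PrimeDivisor R →₀ ℚ) (hΔ : 0 ≤ Δ) (r : R) :
    InSplitting p e Δ hΔ r ↔ r ∈ splittingIdeal p e Δ hΔ := Iff.rfl

lemma inSplitting_zero {R : Type} [CommRing R] [IsDomain R] [IsLocalRing R] (p e : ℕ)
    [hp : Fact p.Prime] (Δ : PrimeDivisor R →₀ ℚ) (hΔ : 0 ≤ Δ) : InSplitting p e Δ hΔ 0 :=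
  (splittingIdeal p e Δ hΔ).zero_mem

lemma inSplitting_add {R : Type} [CommRing R] [IsDomain R] [IsLocalRing R] (p e : ℕ)
    [hp : Fact p.Prime] (Δ : PrimeDivisor R →₀ ℚ) (hΔ : 0 ≤ Δ) {a b : R}
    (ha : InSplitting p e Δ hΔ a) (hb : InSplitting p e Δ hΔ b) : InSplitting p e Δ hΔ (a + b) :=
  (splittingIdeal p e Δ hΔ).add_mem ha hb

lemma inSplitting_smul {R : Type} [CommRing R] [IsDomain R] [IsLocalRing R] (p e : ℕ)
    [hp : Fact p.Prime] (Δ : PrimeDivisor R →₀ ℚ) (hΔ : 0 ≤ Δ) (c : R) {a : R}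
    (ha : InSplitting p e Δ hΔ a) : InSplitting p e Δ hΔ (c • a) :=
  (splittingIdeal p e Δ hΔ).smul_mem c ha

/-- The ideal `I_e^Δ` of `R`. -/
def splitIdeal {R : Type} [CommRing R] [IsDomain R] [IsLocalRing R] (p e : ℕ)
    [Fact p.Prime] (Δ : PrimeDivisor R →₀ ℚ) (hΔ : 0 ≤ Δ) : Ideal R where
  carrier := {r | InSplitting p e Δ hΔ r}
  zero_mem' := inSplitting_zero p e Δ hΔ
  add_mem' := inSplitting_add p e Δ hΔ
  smul_mem' := fun c _ ha => inSplitting_smul p e Δ hΔ c ha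

/-- `s` is the F-signature `s(R, Δ) = lim ℓ_R(R / I_e^Δ) / p^{ed}` of the pair `(R, Δ)`. -/
def HasFSigPair (R : Type) [CommRing R] [IsDomain R] [IsLocalRing R] (p d : ℕ)
    [Fact p.Prime] (Δ : PrimeDivisor R →₀ ℚ) (hΔ : 0 ≤ Δ) (s : ℝ) : Prop :=
  Tendsto (fun e : ℕ => ((Module.length R (R ⧸ splitIdeal p e Δ hΔ)).toNat : ℝ) /
    (p : ℝ) ^ (e * d)) atTop (𝓝 s)

/-- `R` is an F-finite Noetherian normal local domain of dimension `d` with residue field with
`p` elements. -/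
def IsNice (R : Type) [CommRing R] [IsDomain R] [IsLocalRing R] (p d : ℕ) [ExpChar R p] : Prop :=
  IsNoetherianRing R ∧ IsIntegrallyClosed R ∧ (frobenius R p).Finite ∧
    ringKrullDim R = (d : WithBot ℕ∞) ∧ Nonempty (ResidueField R ≃+* ZMod p)

/-! ### Comparison with the auxiliary definitions -/

lemma splitIdeal_eq {R : Type} [CommRing R] [IsDomain R] [IsLocalRing R] (p e : ℕ)
    [Fact p.Prime] (Δ : PrimeDivisor R →₀ ℚ) (hΔ : 0 ≤ Δ) :
    splitIdeal p e Δ hΔ = splittingIdeal p e Δ hΔ := rfl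

lemma hasFSigPair_iff (R : Type) [CommRing R] [IsDomain R] [IsLocalRing R] (p d : ℕ)
    [Fact p.Prime] (Δ : PrimeDivisor R →₀ ℚ) (hΔ : 0 ≤ Δ) (s : ℝ) :
    HasFSigPair R p d Δ hΔ s ↔ HasFSignaturePair R p d Δ hΔ s := Iff.rfl

lemma isCanonicalDivisor_of {R : Type} [CommRing R] [IsDomain R] {p d : ℕ}
    {K : PrimeDivisor R →₀ ℤ} (h : IsCanonical p d K) : IsCanonicalDivisor p d K := by
  obtain ⟨j, hj, hfin, Θ, hΘ⟩ := h
  refine ⟨j, hj, hfin, ?_⟩
  let _ := j.toAlgebra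
  let L : dualGroup j ≃+ (R →ₗ[MvPowerSeries (Fin d) (ZMod p)] MvPowerSeries (Fin d) (ZMod p)) :=
    { toFun := fun ψ =>
        { toFun := fun r => ψ.1 r
          map_add' := fun a b => map_add ψ.1 a b
          map_smul' := fun a r => ψ.2 a r }
      invFun := fun l => ⟨l.toAddMonoidHom, fun a r => l.map_smul a r⟩
      left_inv := fun ψ => rfl
      right_inv := fun l => rfl
      map_add' := fun ψ χ => rfl }
  exact ⟨Θ.trans L, hΘ⟩

end Pool.Agent.H215R3.FS
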